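import Pool.Agent.T9h20.TB.Glob

/-!
# The smoothed real tau-conjecture with shared factors: the Rice inequalities
-/

set_option autoImplicit false

open MeasureTheory Set
open scoped ENNReal NNReal

namespace Pool.Agent.T9h20.TB

open Pool.Agent.T9h20.TA hiding FF PR dPR dFF hasDerivAt_PR hasDerivAt_FF continuous_fn₂ continuous_dfn₂
  continuous_PR₂ continuous_dPR₂ continuous_FF₂ continuous_dFF₂ upd_same upd_ne upd_upd PR_upd dPR_upd
  FF_upd KK UU isClosed_KK isOpen_UU G1 dG1 R1 dR1 D1 hasDerivAt_G1 hasDerivAt_R1 hasDerivAt_D1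
  continuous_upd continuous_G1 continuous_dG1 continuous_R1 continuous_dR1 measurable_D1 FF_split
  G1_upd dG1_upd R1_upd dR1_upd D1_upd rice1 K0 U0 isClosed_K0 isOpen_U0 D0 measurable_D0 rice0

section asm1

variable {k q t : ℕ}

/-- Closed part of the region of the pivot `i` with dominant coefficient `s`. -/
def KK [NeZero t] (al : Fin k → Fin q → ℕ) (c a : Fin k ⊕ Fin q → Fin t → ℝ) (i : Fin k) (s : Fin t) :
    Set ((Fin k ⊕ Fin q → Fin t → ℝ) × ℝ) :=
  {p | (∀ l, |mx (c (Sum.inl l)) (a (Sum.inl l)) p.2 * PR al c a p.1 l p.2| ≤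
      |mx (c (Sum.inl i)) (a (Sum.inl i)) p.2 * PR al c a p.1 i p.2|) ∧
    ∀ r, |mon (c (Sum.inl i)) (a (Sum.inl i)) r p.2| ≤ |mon (c (Sum.inl i)) (a (Sum.inl i)) s p.2|}

/-- Open part of the region. -/
def UU (al : Fin k → Fin q → ℕ) (c a : Fin k ⊕ Fin q → Fin t → ℝ) (i : Fin k) (s : Fin t) :
    Set ((Fin k ⊕ Fin q → Fin t → ℝ) × ℝ) :=
  {p | PR al c a p.1 i p.2 ≠ 0 ∧
    ∀ r, r < s → |mon (c (Sum.inl i)) (a (Sum.inl i)) r p.2| < |mon (c (Sum.inl i)) (a (Sum.inl i)) s p.2|}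

theorem isClosed_KK [NeZero t] (al : Fin k → Fin q → ℕ) (c a : Fin k ⊕ Fin q → Fin t → ℝ) (i : Fin k)
    (s : Fin t) : IsClosed (KK al c a i s) := by
  have h1 : IsClosed {p : (Fin k ⊕ Fin q → Fin t → ℝ) × ℝ |
      ∀ l, |mx (c (Sum.inl l)) (a (Sum.inl l)) p.2 * PR al c a p.1 l p.2| ≤
      |mx (c (Sum.inl i)) (a (Sum.inl i)) p.2 * PR al c a p.1 i p.2|} := by
    have : {p : (Fin k ⊕ Fin q → Fin t → ℝ) × ℝ |
        ∀ l, |mx (c (Sum.inl l)) (a (Sum.inl l)) p.2 * PR al c a p.1 l p.2| ≤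
        |mx (c (Sum.inl i)) (a (Sum.inl i)) p.2 * PR al c a p.1 i p.2|} =
        ⋂ l, {p | |mx (c (Sum.inl l)) (a (Sum.inl l)) p.2 * PR al c a p.1 l p.2| ≤
        |mx (c (Sum.inl i)) (a (Sum.inl i)) p.2 * PR al c a p.1 i p.2|} := by
      ext p
      simp
    rw [this]
    exact isClosed_iInter fun l => isClosed_le
      (((continuous_mx _ _).comp continuous_snd).mul (continuous_PR₂ al c a l)).abs
      (((continuous_mx _ _).comp continuous_snd).mul (continuous_PR₂ al c a i)).abs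
  have h2 : IsClosed {p : (Fin k ⊕ Fin q → Fin t → ℝ) × ℝ |
      ∀ r, |mon (c (Sum.inl i)) (a (Sum.inl i)) r p.2| ≤ |mon (c (Sum.inl i)) (a (Sum.inl i)) s p.2|} := by
    have : {p : (Fin k ⊕ Fin q → Fin t → ℝ) × ℝ |
        ∀ r, |mon (c (Sum.inl i)) (a (Sum.inl i)) r p.2| ≤ |mon (c (Sum.inl i)) (a (Sum.inl i)) s p.2|} =
        ⋂ r, {p | |mon (c (Sum.inl i)) (a (Sum.inl i)) r p.2| ≤ |mon (c (Sum.inl i)) (a (Sum.inl i)) s p.2|} := by
      ext p
      simp
    rw [this]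
    exact isClosed_iInter fun r => isClosed_le
      ((continuous_mon _ _ r).comp continuous_snd).abs
      ((continuous_mon _ _ s).comp continuous_snd).abs
  exact h1.inter h2

theorem isOpen_UU (al : Fin k → Fin q → ℕ) (c a : Fin k ⊕ Fin q → Fin t → ℝ) (i : Fin k)
    (s : Fin t) : IsOpen (UU al c a i s) := by
  have h1 : IsOpen {p : (Fin k ⊕ Fin q → Fin t → ℝ) × ℝ | PR al c a p.1 i p.2 ≠ 0} :=
    isOpen_ne_fun (continuous_PR₂ al c a i) continuous_const
  have h2 : IsOpen {p : (Fin k ⊕ Fin q → Fin t → ℝ) × ℝ |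
      ∀ r, r < s → |mon (c (Sum.inl i)) (a (Sum.inl i)) r p.2| < |mon (c (Sum.inl i)) (a (Sum.inl i)) s p.2|} := by
    have : {p : (Fin k ⊕ Fin q → Fin t → ℝ) × ℝ |
        ∀ r, r < s → |mon (c (Sum.inl i)) (a (Sum.inl i)) r p.2| < |mon (c (Sum.inl i)) (a (Sum.inl i)) s p.2|} =
        ⋂ r, {p | r < s → |mon (c (Sum.inl i)) (a (Sum.inl i)) r p.2| <
          |mon (c (Sum.inl i)) (a (Sum.inl i)) s p.2|} := by
      ext p
      simp
    rw [this]
    refine isOpen_iInter_of_finite fun r => ?_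
    by_cases hr : r < s
    · simp only [hr, true_imp_iff]
      exact isOpen_lt ((continuous_mon _ _ r).comp continuous_snd).abs
        ((continuous_mon _ _ s).comp continuous_snd).abs
    · simp [hr]
  exact h1.inter h2

/-- The coefficient of the dominant coefficient. -/
noncomputable def G1 (al : Fin k → Fin q → ℕ) (c a : Fin k ⊕ Fin q → Fin t → ℝ) (i : Fin k) (s : Fin t)
    (v : Fin k ⊕ Fin q → Fin t → ℝ) (y : ℝ) : ℝ :=
  mon (c (Sum.inl i)) (a (Sum.inl i)) s y * PR al c a v i y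

noncomputable def dG1 (al : Fin k → Fin q → ℕ) (c a : Fin k ⊕ Fin q → Fin t → ℝ) (i : Fin k) (s : Fin t)
    (v : Fin k ⊕ Fin q → Fin t → ℝ) (y : ℝ) : ℝ :=
  a (Sum.inl i) s * mon (c (Sum.inl i)) (a (Sum.inl i)) s y * PR al c a v i y +
    mon (c (Sum.inl i)) (a (Sum.inl i)) s y * dPR al c a v i y

/-- The rest. -/
noncomputable def R1 (al : Fin k → Fin q → ℕ) (c a : Fin k ⊕ Fin q → Fin t → ℝ) (i : Fin k) (s : Fin t)
    (v : Fin k ⊕ Fin q → Fin t → ℝ) (y : ℝ) : ℝ := FF al c a (upd v (Sum.inl i) s 0) y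

noncomputable def dR1 (al : Fin k → Fin q → ℕ) (c a : Fin k ⊕ Fin q → Fin t → ℝ) (i : Fin k) (s : Fin t)
    (v : Fin k ⊕ Fin q → Fin t → ℝ) (y : ℝ) : ℝ := dFF al c a (upd v (Sum.inl i) s 0) y

noncomputable def D1 (al : Fin k → Fin q → ℕ) (c a : Fin k ⊕ Fin q → Fin t → ℝ) (i : Fin k) (s : Fin t)
    (v : Fin k ⊕ Fin q → Fin t → ℝ) (y : ℝ) : ℝ :=
  (-(dR1 al c a i s v y) * G1 al c a i s v y - -(R1 al c a i s v y) * dG1 al c a i s v y) /
    (G1 al c a i s v y) ^ 2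

theorem hasDerivAt_G1 (al : Fin k → Fin q → ℕ) (c a : Fin k ⊕ Fin q → Fin t → ℝ) (i : Fin k) (s : Fin t)
    (v : Fin k ⊕ Fin q → Fin t → ℝ) (y : ℝ) :
    HasDerivAt (G1 al c a i s v) (dG1 al c a i s v y) y :=
  (hasDerivAt_mon _ _ s y).mul (hasDerivAt_PR al c a v i y)

theorem hasDerivAt_R1 (al : Fin k → Fin q → ℕ) (c a : Fin k ⊕ Fin q → Fin t → ℝ) (i : Fin k) (s : Fin t)
    (v : Fin k ⊕ Fin q → Fin t → ℝ) (y : ℝ) :
    HasDerivAt (R1 al c a i s v) (dR1 al c a i s v y) y :=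
  hasDerivAt_FF al c a _ y

theorem hasDerivAt_D1 (al : Fin k → Fin q → ℕ) (c a : Fin k ⊕ Fin q → Fin t → ℝ) (i : Fin k) (s : Fin t)
    (v : Fin k ⊕ Fin q → Fin t → ℝ) (y : ℝ) (h : G1 al c a i s v y ≠ 0) :
    HasDerivAt (fun z => -(R1 al c a i s v z) / G1 al c a i s v z) (D1 al c a i s v y) y :=
  (hasDerivAt_R1 al c a i s v y).neg.div (hasDerivAt_G1 al c a i s v y) h

theorem continuous_upd (b : Fin k ⊕ Fin q) (s : Fin t) (x : ℝ) :
    Continuous fun v : Fin k ⊕ Fin q → Fin t → ℝ => upd v b s x := by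
  unfold upd
  refine Continuous.update continuous_id b ?_
  exact Continuous.update (continuous_apply b) s continuous_const

theorem continuous_G1 (al : Fin k → Fin q → ℕ) (c a : Fin k ⊕ Fin q → Fin t → ℝ) (i : Fin k) (s : Fin t) :
    Continuous (Function.uncurry (G1 al c a i s)) :=
  ((continuous_mon _ _ s).comp continuous_snd).mul (continuous_PR₂ al c a i)

theorem continuous_dG1 (al : Fin k → Fin q → ℕ) (c a : Fin k ⊕ Fin q → Fin t → ℝ) (i : Fin k) (s : Fin t) :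
    Continuous (Function.uncurry (dG1 al c a i s)) :=
  ((((continuous_mon _ _ s).comp continuous_snd).const_mul _).mul (continuous_PR₂ al c a i)).add
    (((continuous_mon _ _ s).comp continuous_snd).mul (continuous_dPR₂ al c a i))

theorem continuous_R1 (al : Fin k → Fin q → ℕ) (c a : Fin k ⊕ Fin q → Fin t → ℝ) (i : Fin k) (s : Fin t) :
    Continuous (Function.uncurry (R1 al c a i s)) :=
  by
    have h : Continuous fun p : (Fin k ⊕ Fin q → Fin t → ℝ) × ℝ =>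
        (upd p.1 (Sum.inl i) s 0, p.2) :=
      ((continuous_upd (Sum.inl i) s 0).comp continuous_fst).prodMk continuous_snd
    have h2 := (continuous_FF₂ al c a).comp h
    have h3 : Function.uncurry (R1 al c a i s) =
      (fun p : (Fin k ⊕ Fin q → Fin t → ℝ) × ℝ => FF al c a p.1 p.2) ∘
        fun p => (upd p.1 (Sum.inl i) s 0, p.2) := by
      funext p
      rfl
    rw [h3]
    exact h2

theorem continuous_dR1 (al : Fin k → Fin q → ℕ) (c a : Fin k ⊕ Fin q → Fin t → ℝ) (i : Fin k) (s : Fin t) :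
    Continuous (Function.uncurry (dR1 al c a i s)) :=
  by
    have h : Continuous fun p : (Fin k ⊕ Fin q → Fin t → ℝ) × ℝ =>
        (upd p.1 (Sum.inl i) s 0, p.2) :=
      ((continuous_upd (Sum.inl i) s 0).comp continuous_fst).prodMk continuous_snd
    have h2 := (continuous_dFF₂ al c a).comp h
    have h3 : Function.uncurry (dR1 al c a i s) =
      (fun p : (Fin k ⊕ Fin q → Fin t → ℝ) × ℝ => dFF al c a p.1 p.2) ∘
        fun p => (upd p.1 (Sum.inl i) s 0, p.2) := by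
      funext p
      rfl
    rw [h3]
    exact h2

theorem measurable_D1 (al : Fin k → Fin q → ℕ) (c a : Fin k ⊕ Fin q → Fin t → ℝ) (i : Fin k) (s : Fin t) :
    Measurable (Function.uncurry (D1 al c a i s)) := by
  have h1 := (continuous_G1 al c a i s).measurable
  have h2 := (continuous_dG1 al c a i s).measurable
  have h3 := (continuous_R1 al c a i s).measurable
  have h4 := (continuous_dR1 al c a i s).measurable
  exact (((h4.neg).mul h1).sub ((h3.neg).mul h2)).div (h1.pow_const 2)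

theorem FF_split (al : Fin k → Fin q → ℕ) (c a : Fin k ⊕ Fin q → Fin t → ℝ) (i : Fin k) (s : Fin t)
    (v : Fin k ⊕ Fin q → Fin t → ℝ) (y : ℝ) :
    v (Sum.inl i) s * G1 al c a i s v y + R1 al c a i s v y = FF al c a v y := by
  unfold G1 R1
  rw [FF_upd]
  ring

theorem G1_upd (al : Fin k → Fin q → ℕ) (c a : Fin k ⊕ Fin q → Fin t → ℝ) (i : Fin k) (s : Fin t)
    (v : Fin k ⊕ Fin q → Fin t → ℝ) (x : ℝ) :
    G1 al c a i s (upd v (Sum.inl i) s x) = G1 al c a i s v := by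
  funext y
  unfold G1
  rw [PR_upd]

theorem dG1_upd (al : Fin k → Fin q → ℕ) (c a : Fin k ⊕ Fin q → Fin t → ℝ) (i : Fin k) (s : Fin t)
    (v : Fin k ⊕ Fin q → Fin t → ℝ) (x : ℝ) :
    dG1 al c a i s (upd v (Sum.inl i) s x) = dG1 al c a i s v := by
  funext y
  unfold dG1
  rw [PR_upd, dPR_upd]

theorem R1_upd (al : Fin k → Fin q → ℕ) (c a : Fin k ⊕ Fin q → Fin t → ℝ) (i : Fin k) (s : Fin t)
    (v : Fin k ⊕ Fin q → Fin t → ℝ) (x : ℝ) :
    R1 al c a i s (upd v (Sum.inl i) s x) = R1 al c a i s v := by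
  funext y
  unfold R1
  rw [upd_upd]

theorem dR1_upd (al : Fin k → Fin q → ℕ) (c a : Fin k ⊕ Fin q → Fin t → ℝ) (i : Fin k) (s : Fin t)
    (v : Fin k ⊕ Fin q → Fin t → ℝ) (x : ℝ) :
    dR1 al c a i s (upd v (Sum.inl i) s x) = dR1 al c a i s v := by
  funext y
  unfold dR1
  rw [upd_upd]

theorem D1_upd (al : Fin k → Fin q → ℕ) (c a : Fin k ⊕ Fin q → Fin t → ℝ) (i : Fin k) (s : Fin t)
    (v : Fin k ⊕ Fin q → Fin t → ℝ) (x : ℝ) :
    D1 al c a i s (upd v (Sum.inl i) s x) = D1 al c a i s v := by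
  funext y
  unfold D1
  rw [G1_upd, dG1_upd, R1_upd, dR1_upd]

/-- Rice inequality for the pivot `i`, dominant coefficient `s`. -/
theorem rice1 (hR : SRice) [NeZero t] (al : Fin k → Fin q → ℕ) (c a : Fin k ⊕ Fin q → Fin t → ℝ)
    (hc : ∀ b s, c b s ≠ 0) (μ : Fin k ⊕ Fin q → Fin t → Measure ℝ)
    [∀ b s, IsProbabilityMeasure (μ b s)] (B : ℝ≥0)
    (hB : ∀ b s, μ b s ≤ (B : ℝ≥0∞) • (volume : Measure ℝ)) (i : Fin k) (s : Fin t) :
    ∫⁻ v, (({y : ℝ | (v, y) ∈ KK al c a i s ∧ (v, y) ∈ UU al c a i s ∧ FF al c a v y = 0}.encard :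
        ℕ∞) : ℝ≥0∞) ∂(PP μ) ≤
      B * ∫⁻ y, ∫⁻ v, (KK al c a i s ∩ UU al c a i s).indicator (fun p => ‖D1 al c a i s p.1 p.2‖ₑ)
        (v, y) ∂(PP μ) := by
  have h := hR (Fin k ⊕ Fin q) t μ B (Sum.inl i) s (hB _ _) (KK al c a i s) (UU al c a i s)
    (G1 al c a i s) (R1 al c a i s) (D1 al c a i s) (isClosed_KK al c a i s) (isOpen_UU al c a i s)
    (continuous_G1 al c a i s) (continuous_R1 al c a i s) (measurable_D1 al c a i s)
    (fun v x y => by simp only [KK, Set.mem_ofPred_eq, PR_upd])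
    (fun v x y => by simp only [UU, Set.mem_ofPred_eq, PR_upd])
    (G1_upd al c a i s) (R1_upd al c a i s) (D1_upd al c a i s)
    (fun v y _ hU => by
      have hG : G1 al c a i s v y ≠ 0 := mul_ne_zero (mon_ne (hc _ _) y) hU.1
      exact ⟨hG, hasDerivAt_D1 al c a i s v y hG⟩)
  simp only [FF_split] at h
  exact h

/-! ### The zeros of one factor -/

/-- Closed part of the region. -/
def K0 (c a : Fin k ⊕ Fin q → Fin t → ℝ) (b : Fin k ⊕ Fin q) (s : Fin t) :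
    Set ((Fin k ⊕ Fin q → Fin t → ℝ) × ℝ) :=
  {p | ∀ r, |mon (c b) (a b) r p.2| ≤ |mon (c b) (a b) s p.2|}

def U0 (c a : Fin k ⊕ Fin q → Fin t → ℝ) (b : Fin k ⊕ Fin q) (s : Fin t) :
    Set ((Fin k ⊕ Fin q → Fin t → ℝ) × ℝ) :=
  {p | ∀ r, r < s → |mon (c b) (a b) r p.2| < |mon (c b) (a b) s p.2|}

theorem isClosed_K0 (c a : Fin k ⊕ Fin q → Fin t → ℝ) (b : Fin k ⊕ Fin q)
    (s : Fin t) : IsClosed (K0 c a b s) := by
  have : K0 c a b s =
      ⋂ r, {p | |mon (c b) (a b) r p.2| ≤ |mon (c b) (a b) s p.2|} := by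
    ext p
    simp [K0]
  rw [this]
  exact isClosed_iInter fun r => isClosed_le
    ((continuous_mon _ _ r).comp continuous_snd).abs
    ((continuous_mon _ _ s).comp continuous_snd).abs

theorem isOpen_U0 (c a : Fin k ⊕ Fin q → Fin t → ℝ) (b : Fin k ⊕ Fin q)
    (s : Fin t) : IsOpen (U0 c a b s) := by
  have : U0 c a b s =
      ⋂ r, {p | r < s → |mon (c b) (a b) r p.2| < |mon (c b) (a b) s p.2|} := by
    ext p
    simp [U0]
  rw [this]
  refine isOpen_iInter_of_finite fun r => ?_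
  by_cases hr : r < s
  · simp only [hr, true_imp_iff]
    exact isOpen_lt ((continuous_mon _ _ r).comp continuous_snd).abs
      ((continuous_mon _ _ s).comp continuous_snd).abs
  · simp [hr]

noncomputable def D0 (c a : Fin k ⊕ Fin q → Fin t → ℝ) (b : Fin k ⊕ Fin q)
    (s : Fin t) (v : Fin k ⊕ Fin q → Fin t → ℝ) (y : ℝ) : ℝ :=
  (-(dfn (c b) (a b) (upd v b s 0 b) y) * mon (c b) (a b) s y -
    -(fn (c b) (a b) (upd v b s 0 b) y) * (a b s * mon (c b) (a b) s y)) /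
    (mon (c b) (a b) s y) ^ 2

theorem measurable_D0 (c a : Fin k ⊕ Fin q → Fin t → ℝ) (b : Fin k ⊕ Fin q)
    (s : Fin t) : Measurable (Function.uncurry (D0 c a b s)) := by
  have h1 : Measurable fun p : (Fin k ⊕ Fin q → Fin t → ℝ) × ℝ =>
      mon (c b) (a b) s p.2 := ((continuous_mon _ _ s).comp continuous_snd).measurable
  have h2 : Measurable fun p : (Fin k ⊕ Fin q → Fin t → ℝ) × ℝ =>
      fn (c b) (a b) (upd p.1 b s 0 b) p.2 :=
    ((continuous_fn₂ c a b).comp (((continuous_upd b s 0).comp continuous_fst).prodMk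
      continuous_snd)).measurable
  have h3 : Measurable fun p : (Fin k ⊕ Fin q → Fin t → ℝ) × ℝ =>
      dfn (c b) (a b) (upd p.1 b s 0 b) p.2 :=
    ((continuous_dfn₂ c a b).comp (((continuous_upd b s 0).comp continuous_fst).prodMk
      continuous_snd)).measurable
  exact (((h3.neg).mul h1).sub ((h2.neg).mul (h1.const_mul _))).div (h1.pow_const 2)

/-- Rice inequality for the zeros of the factor `b`. -/
theorem rice0 (hR : SRice) (c a : Fin k ⊕ Fin q → Fin t → ℝ)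
    (hc : ∀ b s, c b s ≠ 0) (μ : Fin k ⊕ Fin q → Fin t → Measure ℝ)
    [∀ b s, IsProbabilityMeasure (μ b s)] (B : ℝ≥0)
    (hB : ∀ b s, μ b s ≤ (B : ℝ≥0∞) • (volume : Measure ℝ)) (b : Fin k ⊕ Fin q)
    (s : Fin t) :
    ∫⁻ v, (({y : ℝ | (v, y) ∈ K0 c a b s ∧ (v, y) ∈ U0 c a b s ∧
        fn (c b) (a b) (v b) y = 0}.encard : ℕ∞) : ℝ≥0∞) ∂(PP μ) ≤
      B * ∫⁻ y, ∫⁻ v, (K0 c a b s ∩ U0 c a b s).indicator (fun p => ‖D0 c a b s p.1 p.2‖ₑ)
        (v, y) ∂(PP μ) := by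
  have h := hR (Fin k ⊕ Fin q) t μ B b s (hB _ _) (K0 c a b s) (U0 c a b s)
    (fun _ y => mon (c b) (a b) s y) (fun v y => fn (c b) (a b) (upd v b s 0 b) y)
    (D0 c a b s) (isClosed_K0 c a b s) (isOpen_U0 c a b s)
    ((continuous_mon _ _ s).comp continuous_snd)
    ((continuous_fn₂ c a b).comp (((continuous_upd b s 0).comp continuous_fst).prodMk
      continuous_snd)) (measurable_D0 c a b s)
    (fun v x y => Iff.rfl) (fun v x y => Iff.rfl) (fun v x => rfl)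
    (fun v x => by funext y; rw [upd_upd])
    (fun v x => by funext y; unfold D0; rw [upd_upd])
    (fun v y _ _ => ⟨mon_ne (hc _ _) y,
      (hasDerivAt_fn _ _ _ y).neg.div (hasDerivAt_mon _ _ s y) (mon_ne (hc _ _) y)⟩)
  have e : ∀ (v : Fin k ⊕ Fin q → Fin t → ℝ) (y : ℝ),
      v b s * mon (c b) (a b) s y + fn (c b) (a b) (upd v b s 0 b) y =
        fn (c b) (a b) (v b) y := by
    intro v y
    rw [upd_same, fn_update]
    ring
  simp only [e] at h
  exact h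

end asm1

end Pool.Agent.T9h20.TB
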