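import Pool.Agent.T9h20.TB.Asm1

/-!
# The smoothed real tau-conjecture with shared factors: the pointwise bound
-/

set_option autoImplicit false

open MeasureTheory Set
open scoped ENNReal NNReal

namespace Pool.Agent.T9h20.TB

open Pool.Agent.T9h20.TA (mon fn dfn IsSel sel mx gg ta hh kap upd mon_ne hasDerivAt_mon
  continuous_mon hasDerivAt_fn sel_unique mx_pos mon_le_mx abs_gg_le abs_gg_sel hh_sel fn_eq
  dfn_eq dfn_div continuous_mx SLogD deriv_own isSel_sel)

section asm2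

variable {k q t : ℕ} [NeZero t]

/-- The normalised factor `b` at `y`. -/
noncomputable def rho (c a v : Fin k ⊕ Fin q → Fin t → ℝ) (y : ℝ)
    (b : Fin k ⊕ Fin q) : ℝ := ∑ s, v b s * gg (c b) (a b) s y

/-- The normalised fluctuation of the derivative. -/
noncomputable def eta (c a v : Fin k ⊕ Fin q → Fin t → ℝ) (y : ℝ)
    (b : Fin k ⊕ Fin q) : ℝ := ∑ s, v b s * hh (c b) (a b) s y

/-- The shared factors with different powers in the products `l` and `i`. -/
def SS (al : Fin k → Fin q → ℕ) (l i : Fin k) : Finset (Fin k ⊕ Fin q) :=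
  (Finset.univ.filter fun j => al l j ≠ al i j).map Function.Embedding.inr

/-- The difference of the powers. -/
def pp (al : Fin k → Fin q → ℕ) (l i : Fin k) : Fin k ⊕ Fin q → ℤ :=
  Sum.elim (fun _ => 0) fun j => (al l j : ℤ) - al i j

theorem sum_SS (al : Fin k → Fin q → ℕ) (l i : Fin k) (F : Fin k ⊕ Fin q → ℝ) :
    ∑ b ∈ SS al l i, (pp al l i b : ℝ) * F b =
      ∑ j, (al l j : ℝ) * F (Sum.inr j) - ∑ j, (al i j : ℝ) * F (Sum.inr j) := by
  unfold SS
  rw [Finset.sum_map]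
  have h1 : ∀ j : Fin q, (pp al l i (Function.Embedding.inr j) : ℝ) *
      F (Function.Embedding.inr j) = (al l j : ℝ) * F (Sum.inr j) -
        (al i j : ℝ) * F (Sum.inr j) := by
    intro j
    have : pp al l i (Function.Embedding.inr j) = (al l j : ℤ) - al i j := rfl
    rw [this]
    push_cast
    simp only [Function.Embedding.inr_apply]
    ring
  simp only [h1]
  rw [Finset.sum_filter_of_ne, Finset.sum_sub_distrib]
  intro j _ hj h0
  rw [h0, sub_self] at hj
  exact hj rfl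

theorem prod_SS (al : Fin k → Fin q → ℕ) (l i : Fin k) (F : Fin k ⊕ Fin q → ℝ)
    (hF : ∀ j, F (Sum.inr j) ≠ 0) :
    ∏ b ∈ SS al l i, F b ^ pp al l i b =
      (∏ j, F (Sum.inr j) ^ al l j) / ∏ j, F (Sum.inr j) ^ al i j := by
  unfold SS
  rw [Finset.prod_map]
  have h1 : ∀ j : Fin q, F (Function.Embedding.inr j) ^ pp al l i (Function.Embedding.inr j) =
      F (Sum.inr j) ^ al l j / F (Sum.inr j) ^ al i j := by
    intro j
    have : pp al l i (Function.Embedding.inr j) = (al l j : ℤ) - al i j := rfl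
    rw [this]
    simp only [Function.Embedding.inr_apply]
    rw [zpow_sub₀ (hF j), zpow_natCast, zpow_natCast]
  simp only [h1]
  rw [Finset.prod_filter_of_ne, Finset.prod_div_distrib]
  intro j _ hj h0
  rw [h0, div_self (pow_ne_zero _ (hF j))] at hj
  exact hj rfl

/-- Quotient of the sizes of the products `l` and `i`. -/
noncomputable def zz (al : Fin k → Fin q → ℕ) (c a : Fin k ⊕ Fin q → Fin t → ℝ) (l i : Fin k)
    (y : ℝ) : ℝ :=
  mx (c (Sum.inl l)) (a (Sum.inl l)) y / mx (c (Sum.inl i)) (a (Sum.inl i)) y *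
    ∏ b ∈ SS al l i, mx (c b) (a b) y ^ pp al l i b

/-- Difference of the slopes. -/
noncomputable def lam (al : Fin k → Fin q → ℕ) (c a : Fin k ⊕ Fin q → Fin t → ℝ) (l i : Fin k)
    (y : ℝ) : ℝ :=
  ta (c (Sum.inl l)) (a (Sum.inl l)) y - ta (c (Sum.inl i)) (a (Sum.inl i)) y +
    ∑ b ∈ SS al l i, (pp al l i b : ℝ) * ta (c b) (a b) y

/-- The normalised quotient. -/
noncomputable def ZZ (al : Fin k → Fin q → ℕ) (c a v : Fin k ⊕ Fin q → Fin t → ℝ) (l i : Fin k)
    (y : ℝ) : ℝ :=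
  zz al c a l i y * ∏ b ∈ SS al l i, rho c a v y b ^ pp al l i b

/-- The integrand of the piece (H'). -/
noncomputable def II (al : Fin k → Fin q → ℕ) (c a v : Fin k ⊕ Fin q → Fin t → ℝ) (l i : Fin k)
    (y : ℝ) : ℝ :=
  ZZ al c a v l i y * rho c a v y (Sum.inl l) *
    (lam al c a l i y + eta c a v y (Sum.inl l) / rho c a v y (Sum.inl l) +
      ∑ b ∈ SS al l i, (pp al l i b : ℝ) * (eta c a v y b / rho c a v y b))

theorem fn_rho {c a : Fin k ⊕ Fin q → Fin t → ℝ} (hc : ∀ b s, c b s ≠ 0)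
    (v : Fin k ⊕ Fin q → Fin t → ℝ) (y : ℝ) (b : Fin k ⊕ Fin q) :
    fn (c b) (a b) (v b) y = mx (c b) (a b) y * rho c a v y b :=
  fn_eq (hc b) (v b) y

theorem zz_pos (al : Fin k → Fin q → ℕ) {c a : Fin k ⊕ Fin q → Fin t → ℝ}
    (hc : ∀ b s, c b s ≠ 0) (l i : Fin k) (y : ℝ) : 0 < zz al c a l i y := by
  unfold zz
  refine mul_pos (div_pos (mx_pos (hc _) y) (mx_pos (hc _) y)) (Finset.prod_pos fun b _ => ?_)
  exact zpow_pos (mx_pos (hc _) y) _

theorem ZZ_eq (al : Fin k → Fin q → ℕ) {c a : Fin k ⊕ Fin q → Fin t → ℝ}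
    (hc : ∀ b s, c b s ≠ 0) {v : Fin k ⊕ Fin q → Fin t → ℝ} {y : ℝ}
    (hn : ∀ b, fn (c b) (a b) (v b) y ≠ 0) (l i : Fin k) :
    ZZ al c a v l i y = (mx (c (Sum.inl l)) (a (Sum.inl l)) y * PR al c a v l y) /
      (mx (c (Sum.inl i)) (a (Sum.inl i)) y * PR al c a v i y) := by
  have h1 : (∏ b ∈ SS al l i, mx (c b) (a b) y ^ pp al l i b) *
      ∏ b ∈ SS al l i, rho c a v y b ^ pp al l i b = PR al c a v l y / PR al c a v i y := by
    rw [← Finset.prod_mul_distrib]
    have h2 : ∀ b ∈ SS al l i, mx (c b) (a b) y ^ pp al l i b * rho c a v y b ^ pp al l i b =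
        fn (c b) (a b) (v b) y ^ pp al l i b := by
      intro b _
      rw [fn_rho hc, mul_zpow]
    rw [Finset.prod_congr rfl h2, prod_SS al l i (fun b => fn (c b) (a b) (v b) y)
      fun j => hn _]
    rfl
  unfold ZZ zz
  rw [mul_assoc, h1, div_mul_div_comm]

theorem abs_ZZ_le (al : Fin k → Fin q → ℕ) {c a : Fin k ⊕ Fin q → Fin t → ℝ}
    (hc : ∀ b s, c b s ≠ 0) {v : Fin k ⊕ Fin q → Fin t → ℝ} {y : ℝ} {i : Fin k} {s : Fin t}
    (hK : (v, y) ∈ KK al c a i s) (hn : ∀ b, fn (c b) (a b) (v b) y ≠ 0) (l : Fin k) :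
    |ZZ al c a v l i y| ≤ 1 := by
  rw [ZZ_eq al hc hn, abs_div]
  exact div_le_one_of_le₀ (hK.1 l) (abs_nonneg _)

theorem sel_of_mem {al : Fin k → Fin q → ℕ} {c a : Fin k ⊕ Fin q → Fin t → ℝ}
    {v : Fin k ⊕ Fin q → Fin t → ℝ} {y : ℝ} {i : Fin k} {s : Fin t}
    (hK : (v, y) ∈ KK al c a i s) (hU : (v, y) ∈ UU al c a i s) :
    sel (c (Sum.inl i)) (a (Sum.inl i)) y = s :=
  sel_unique ⟨hK.2, hU.2⟩

/-- The logarithmic derivative of the shared part. -/
theorem dPR_div (al : Fin k → Fin q → ℕ) {c a : Fin k ⊕ Fin q → Fin t → ℝ}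
    {v : Fin k ⊕ Fin q → Fin t → ℝ} {y : ℝ} (hn : ∀ b, fn (c b) (a b) (v b) y ≠ 0)
    (i : Fin k) : dPR al c a v i y / PR al c a v i y =
      ∑ j, (al i j : ℝ) * (dfn (c (Sum.inr j)) (a (Sum.inr j)) (v (Sum.inr j)) y /
        fn (c (Sum.inr j)) (a (Sum.inr j)) (v (Sum.inr j)) y) := by
  classical
  unfold dPR
  rw [Finset.sum_div]
  refine Finset.sum_congr rfl fun j _ => ?_
  have h1 : PR al c a v i y = (∏ r ∈ Finset.univ.erase j,
      fn (c (Sum.inr r)) (a (Sum.inr r)) (v (Sum.inr r)) y ^ al i r) *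
      fn (c (Sum.inr j)) (a (Sum.inr j)) (v (Sum.inr j)) y ^ al i j := by
    unfold PR
    rw [Finset.prod_erase_mul _ _ (Finset.mem_univ j)]
  have h2 : (∏ r ∈ Finset.univ.erase j,
      fn (c (Sum.inr r)) (a (Sum.inr r)) (v (Sum.inr r)) y ^ al i r) ≠ 0 :=
    Finset.prod_ne_zero_iff.mpr fun r _ => pow_ne_zero _ (hn _)
  rw [h1, mul_div_mul_left _ _ h2]
  have hf := hn (Sum.inr j)
  rcases Nat.eq_zero_or_pos (al i j) with h0 | h0
  · rw [h0]
    simp
  · obtain ⟨n, hn'⟩ : ∃ n, al i j = n + 1 := ⟨al i j - 1, by omega⟩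
    rw [hn', Nat.add_sub_cancel, pow_succ]
    field_simp

/-- The main pointwise inequality. -/
theorem D1_le (hL : SLogD) {al : Fin k → Fin q → ℕ} {c a : Fin k ⊕ Fin q → Fin t → ℝ}
    (hc : ∀ b s, c b s ≠ 0)
    {v : Fin k ⊕ Fin q → Fin t → ℝ} {y : ℝ} {i : Fin k} {s : Fin t}
    (hK : (v, y) ∈ KK al c a i s) (hU : (v, y) ∈ UU al c a i s)
    (hn : ∀ b, fn (c b) (a b) (v b) y ≠ 0) :
    ‖D1 al c a i s v y‖ₑ ≤ ‖eta c a v y (Sum.inl i)‖ₑ +
      ∑ l ∈ Finset.univ.erase i, ‖II al c a v l i y‖ₑ := by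
  have hs := sel_of_mem hK hU
  have hms := mon_ne (a := a (Sum.inl i)) (hc (Sum.inl i) s) y
  have hG : G1 al c a i s v y ≠ 0 := mul_ne_zero hms hU.1
  have hD := hasDerivAt_D1 al c a i s v y hG
  have hP : ∀ l, PR al c a v l y ≠ 0 := by
    intro l
    unfold PR
    exact Finset.prod_ne_zero_iff.mpr fun r _ => pow_ne_zero _ (hn _)
  -- the alternative expression
  set w : ℝ → ℝ := mon (c (Sum.inl i)) (a (Sum.inl i)) s with hw
  set qq : Fin k → ℝ → ℝ := fun l z => fn (c (Sum.inl l)) (a (Sum.inl l)) (v (Sum.inl l)) z *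
    PR al c a v l z / (w z * PR al c a v i z) with hq
  set f0 : ℝ → ℝ := fn (c (Sum.inl i)) (a (Sum.inl i)) (Function.update (v (Sum.inl i)) s 0)
    with hf0
  have hq' : ∀ l, HasDerivAt (qq l) (qq l y *
      (dfn (c (Sum.inl l)) (a (Sum.inl l)) (v (Sum.inl l)) y /
      fn (c (Sum.inl l)) (a (Sum.inl l)) (v (Sum.inl l)) y +
      dPR al c a v l y / PR al c a v l y -
      (a (Sum.inl i) s * w y) / w y - dPR al c a v i y / PR al c a v i y)) y := by
    intro l
    have h := hL 1 (fun _ => PR al c a v l) (fun _ => PR al c a v i)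
      (fun _ => dPR al c a v l y) (fun _ => dPR al c a v i y)
      (fn (c (Sum.inl l)) (a (Sum.inl l)) (v (Sum.inl l))) w
      (dfn (c (Sum.inl l)) (a (Sum.inl l)) (v (Sum.inl l)) y)
      (a (Sum.inl i) s * w y) y (fun _ => hasDerivAt_PR al c a v l y)
      (fun _ => hasDerivAt_PR al c a v i y)
      (hasDerivAt_fn _ _ _ y) (hasDerivAt_mon _ _ s y) (fun _ => hP l) (fun _ => hP i) (hn _) hms
    simp only [Finset.univ_unique, Finset.prod_singleton, Finset.sum_singleton] at h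
    exact h
  have hf' : HasDerivAt (fun z => f0 z / w z)
      ((dfn (c (Sum.inl i)) (a (Sum.inl i)) (Function.update (v (Sum.inl i)) s 0) y * w y -
        f0 y * (a (Sum.inl i) s * w y)) / w y ^ 2) y :=
    (hasDerivAt_fn _ _ _ y).div (hasDerivAt_mon _ _ s y) hms
  have halt := (hf'.add (HasDerivAt.fun_sum (u := Finset.univ.erase i)
    fun l _ => hq' l)).neg
  have heq : (fun z => -(R1 al c a i s v z) / G1 al c a i s v z) =ᶠ[nhds y]
      -((fun z => f0 z / w z) + fun z => ∑ l ∈ Finset.univ.erase i, qq l z) := by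
    have hev : ∀ᶠ z in nhds y, PR al c a v i z ≠ 0 :=
      (hasDerivAt_PR al c a v i y).continuousAt.eventually_ne hU.1
    filter_upwards [hev] with z hz
    have hwz : w z ≠ 0 := mon_ne (hc (Sum.inl i) s) z
    have h1 : R1 al c a i s v z = f0 z * PR al c a v i z +
        ∑ l ∈ Finset.univ.erase i, fn (c (Sum.inl l)) (a (Sum.inl l)) (v (Sum.inl l)) z *
          PR al c a v l z := by
      unfold R1 FF
      rw [← Finset.add_sum_erase _ _ (Finset.mem_univ i), PR_upd, upd_same]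
      congr 1
      refine Finset.sum_congr rfl fun l hl => ?_
      have hne : (Sum.inl l : Fin k ⊕ Fin q) ≠ Sum.inl i := by
        intro h
        exact Finset.ne_of_mem_erase hl (Sum.inl.inj h)
      rw [upd_ne hne, PR_upd]
    have h2 : G1 al c a i s v z = w z * PR al c a v i z := rfl
    rw [h1, h2]
    simp only [Pi.neg_apply, Pi.add_apply, hq]
    rw [neg_div, add_div, mul_div_mul_right _ _ hz, Finset.sum_div]
  have hun := hD.unique (halt.congr_of_eventuallyEq heq)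
  rw [hun, enorm_neg]
  refine (enorm_add_le _ _).trans ?_
  refine add_le_add ?_ ?_
  · exact (deriv_own (hc (Sum.inl i)) (v (Sum.inl i)) y s hs).le
  · refine (enorm_sum_le _ _).trans (Finset.sum_le_sum fun l _ => ?_)
    -- compare with `II`
    have hta : a (Sum.inl i) s * w y / w y = ta (c (Sum.inl i)) (a (Sum.inl i)) y := by
      rw [mul_div_assoc, div_self hms, mul_one]
      unfold ta
      rw [hs]
    have hdiv : ∀ b, dfn (c b) (a b) (v b) y / fn (c b) (a b) (v b) y =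
        ta (c b) (a b) y + eta c a v y b / rho c a v y b := fun b => dfn_div (hc b) (hn b)
    have hbr : dfn (c (Sum.inl l)) (a (Sum.inl l)) (v (Sum.inl l)) y /
          fn (c (Sum.inl l)) (a (Sum.inl l)) (v (Sum.inl l)) y +
        dPR al c a v l y / PR al c a v l y -
        (a (Sum.inl i) s * w y) / w y - dPR al c a v i y / PR al c a v i y =
        lam al c a l i y + eta c a v y (Sum.inl l) / rho c a v y (Sum.inl l) +
          ∑ b ∈ SS al l i, (pp al l i b : ℝ) * (eta c a v y b / rho c a v y b) := by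
      have e1 := sum_SS al l i fun b => ta (c b) (a b) y
      have e2 := sum_SS al l i fun b => eta c a v y b / rho c a v y b
      rw [dPR_div al hn, dPR_div al hn, hta]
      simp only [hdiv]
      unfold lam
      rw [e1, e2]
      simp only [mul_add, Finset.sum_add_distrib]
      ring
    rw [hbr]
    unfold II
    have hqy : |qq l y| = |ZZ al c a v l i y * rho c a v y (Sum.inl l)| := by
      have hwy : |w y| = mx (c (Sum.inl i)) (a (Sum.inl i)) y := by
        unfold mx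
        rw [hs]
      have hmi : |mx (c (Sum.inl i)) (a (Sum.inl i)) y| = mx (c (Sum.inl i)) (a (Sum.inl i)) y :=
        abs_of_pos (mx_pos (hc (Sum.inl i)) y)
      have e1 : |qq l y| = |mx (c (Sum.inl l)) (a (Sum.inl l)) y * rho c a v y (Sum.inl l)| *
          |PR al c a v l y| /
          (mx (c (Sum.inl i)) (a (Sum.inl i)) y * |PR al c a v i y|) := by
        have : qq l y = fn (c (Sum.inl l)) (a (Sum.inl l)) (v (Sum.inl l)) y *
          PR al c a v l y / (w y * PR al c a v i y) := rfl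
        rw [this, fn_rho hc, abs_div, abs_mul (w y), hwy, abs_mul]
      have e2 : |ZZ al c a v l i y * rho c a v y (Sum.inl l)| =
          |mx (c (Sum.inl l)) (a (Sum.inl l)) y| * |PR al c a v l y| /
          (mx (c (Sum.inl i)) (a (Sum.inl i)) y * |PR al c a v i y|) *
            |rho c a v y (Sum.inl l)| := by
        rw [ZZ_eq al hc hn, abs_mul, abs_div, abs_mul,
          abs_mul (mx (c (Sum.inl i)) (a (Sum.inl i)) y), hmi]
      rw [e1, e2, abs_mul]
      ring
    rw [enorm_mul, enorm_mul]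
    gcongr
    rw [← Real.enorm_abs, hqy, Real.enorm_abs]

omit [NeZero t] in
theorem D0_eq' {c a : Fin k ⊕ Fin q → Fin t → ℝ} (b : Fin k ⊕ Fin q) (s : Fin t)
    (v : Fin k ⊕ Fin q → Fin t → ℝ) (y : ℝ) :
    D0 c a b s v y = -((dfn (c b) (a b) (Function.update (v b) s 0) y *
    mon (c b) (a b) s y - fn (c b) (a b) (Function.update (v b) s 0) y *
    (a b s * mon (c b) (a b) s y)) / (mon (c b) (a b) s y) ^ 2) := by
  unfold D0
  rw [upd_same]
  ring

/-- The derivative in the case of one factor. -/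
theorem D0_eq {c a : Fin k ⊕ Fin q → Fin t → ℝ} (hc : ∀ b s, c b s ≠ 0)
    {v : Fin k ⊕ Fin q → Fin t → ℝ} {y : ℝ} {b : Fin k ⊕ Fin q} {s : Fin t}
    (hK : (v, y) ∈ K0 c a b s) (hU : (v, y) ∈ U0 c a b s) :
    ‖D0 c a b s v y‖ₑ = ‖eta c a v y b‖ₑ := by
  have hs : sel (c b) (a b) y = s := sel_unique ⟨hK, hU⟩
  have h := deriv_own (hc b) (v b) y s hs
  rw [D0_eq', enorm_neg]
  exact h

end asm2

end Pool.Agent.T9h20.TB
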