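import Pool.Agent.T9h20.TB.Asm2
import Pool.Agent.T9h20.TA.Spec2

/-!
# The smoothed real tau-conjecture with shared factors: the expectation for fixed `y`
-/

set_option autoImplicit false

open MeasureTheory Set
open scoped ENNReal NNReal

namespace Pool.Agent.T9h20.TB

open Pool.Agent.T9h20.TA (mon fn dfn IsSel sel mx gg ta hh kap upd PP mon_ne hasDerivAt_mon
  continuous_mon hasDerivAt_fn sel_unique mx_pos mon_le_mx abs_gg_le abs_gg_sel hh_sel fn_eq
  dfn_eq dfn_div continuous_mx SLogD deriv_own isSel_sel SMom SFixP SKap SDrift ae_block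
  lintegral_lin th th_pos th_le measurable_kap measurable_ta isProb_PP)

section asm3

variable {k q t : ℕ} [NeZero t]

theorem ae_ne (hM : SMom) {c a : Fin k ⊕ Fin q → Fin t → ℝ} (hc : ∀ b s, c b s ≠ 0)
    (μ : Fin k ⊕ Fin q → Fin t → Measure ℝ)
    [∀ b s, IsProbabilityMeasure (μ b s)] (A B : ℝ≥0)
    (hB : ∀ b s, μ b s ≤ (B : ℝ≥0∞) • (volume : Measure ℝ))
    (hA : ∀ b s, ∫⁻ x, ‖x‖ₑ ∂(μ b s) ≤ A) (y : ℝ) :
    ∀ᵐ v ∂(PP μ), ∀ b, fn (c b) (a b) (v b) y ≠ 0 := by
  rw [ae_all_iff]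
  intro b
  have h := ae_block hM (hc b) (μ b) A B (hB b) (hA b) (a := a b) y
  exact (Measure.quasiMeasurePreserving_eval (μ := fun b => Measure.pi (μ b)) b).ae h

omit [NeZero t] in
theorem measurable_rho [NeZero t] (c a : Fin k ⊕ Fin q → Fin t → ℝ) (y : ℝ)
    (b : Fin k ⊕ Fin q) : Measurable fun v => rho c a v y b := by
  unfold rho
  fun_prop

theorem measurable_eta (c a : Fin k ⊕ Fin q → Fin t → ℝ) (y : ℝ)
    (b : Fin k ⊕ Fin q) : Measurable fun v => eta c a v y b := by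
  unfold eta
  fun_prop

theorem measurable_zpow (n : ℤ) : Measurable fun x : ℝ => x ^ n := by
  rcases n with n | n
  · simp only [Int.ofNat_eq_natCast, zpow_natCast]
    exact measurable_id.pow_const n
  · simp only [zpow_negSucc]
    exact (measurable_id.pow_const (n + 1)).inv

theorem measurable_ZZ (al : Fin k → Fin q → ℕ) (c a : Fin k ⊕ Fin q → Fin t → ℝ) (l i : Fin k)
    (y : ℝ) : Measurable fun v => ZZ al c a v l i y := by
  unfold ZZ
  exact (Finset.measurable_fun_prod _ fun b _ =>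
    (measurable_zpow _).comp (measurable_rho c a y b)).const_mul _

theorem measurable_II (al : Fin k → Fin q → ℕ) (c a : Fin k ⊕ Fin q → Fin t → ℝ) (l i : Fin k)
    (y : ℝ) : Measurable fun v => II al c a v l i y := by
  unfold II
  refine ((measurable_ZZ al c a l i y).mul (measurable_rho c a y _)).mul ?_
  refine Measurable.add (Measurable.add measurable_const ?_) ?_
  · exact (measurable_eta c a y _).div (measurable_rho c a y _)
  · exact Finset.measurable_fun_sum _ fun b _ =>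
      ((measurable_eta c a y b).div (measurable_rho c a y b)).const_mul _

theorem lintegral_eta {c a : Fin k ⊕ Fin q → Fin t → ℝ}
    (μ : Fin k ⊕ Fin q → Fin t → Measure ℝ)
    [∀ b s, IsProbabilityMeasure (μ b s)] (A : ℝ≥0)
    (hA : ∀ b s, ∫⁻ x, ‖x‖ₑ ∂(μ b s) ≤ A) (b : Fin k ⊕ Fin q) (y : ℝ) :
    ∫⁻ v, ‖eta c a v y b‖ₑ ∂(PP μ) ≤ A * kap (c b) (a b) y := by
  have h := (measurePreserving_eval (fun b => Measure.pi (μ b)) b).lintegral_comp
    (f := fun w : Fin t → ℝ => ‖∑ s, w s * hh (c b) (a b) s y‖ₑ) (by fun_prop)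
  exact h.trans_le (lintegral_lin (μ b) A (hA b) _)

/-! ### The powers -/

omit [NeZero t] in
theorem pos_part_le {n : ℕ} {al : Fin k → Fin q → ℕ} (hal : ∀ i, ∑ j, al i j ≤ n)
    (l i : Fin k) : ∑ b ∈ SS al l i, max (pp al l i b : ℝ) 0 ≤ n := by
  unfold SS
  rw [Finset.sum_map]
  have h1 : ∀ j : Fin q, max (pp al l i (Function.Embedding.inr j) : ℝ) 0 ≤ al l j := by
    intro j
    have : pp al l i (Function.Embedding.inr j) = (al l j : ℤ) - al i j := rfl
    rw [this]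
    push_cast
    refine max_le ?_ (Nat.cast_nonneg _)
    have : (0 : ℝ) ≤ al i j := Nat.cast_nonneg _
    linarith
  calc ∑ j ∈ Finset.univ.filter fun j => al l j ≠ al i j,
        max (pp al l i (Function.Embedding.inr j) : ℝ) 0
      ≤ ∑ j ∈ Finset.univ.filter fun j => al l j ≠ al i j, (al l j : ℝ) :=
        Finset.sum_le_sum fun j _ => h1 j
    _ ≤ ∑ j, (al l j : ℝ) := Finset.sum_le_sum_of_subset_of_nonneg (Finset.filter_subset _ _)
        fun j _ _ => Nat.cast_nonneg _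
    _ ≤ n := by exact_mod_cast hal l

theorem neg_part_le {n : ℕ} {al : Fin k → Fin q → ℕ} (hal : ∀ i, ∑ j, al i j ≤ n)
    (l i : Fin k) : ∑ b ∈ SS al l i, max (-(pp al l i b : ℝ)) 0 ≤ n := by
  unfold SS
  rw [Finset.sum_map]
  have h1 : ∀ j : Fin q, max (-(pp al l i (Function.Embedding.inr j) : ℝ)) 0 ≤ al i j := by
    intro j
    have : pp al l i (Function.Embedding.inr j) = (al l j : ℤ) - al i j := rfl
    rw [this]
    push_cast
    refine max_le ?_ (Nat.cast_nonneg _)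
    have : (0 : ℝ) ≤ al l j := Nat.cast_nonneg _
    linarith
  calc ∑ j ∈ Finset.univ.filter fun j => al l j ≠ al i j,
        max (-(pp al l i (Function.Embedding.inr j) : ℝ)) 0
      ≤ ∑ j ∈ Finset.univ.filter fun j => al l j ≠ al i j, (al i j : ℝ) :=
        Finset.sum_le_sum fun j _ => h1 j
    _ ≤ ∑ j, (al i j : ℝ) := Finset.sum_le_sum_of_subset_of_nonneg (Finset.filter_subset _ _)
        fun j _ _ => Nat.cast_nonneg _
    _ ≤ n := by exact_mod_cast hal i

theorem card_SS_le {n : ℕ} {al : Fin k → Fin q → ℕ} (hal : ∀ i, ∑ j, al i j ≤ n)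
    (l i : Fin k) : (SS al l i).card ≤ n + n := by
  unfold SS
  rw [Finset.card_map]
  calc (Finset.univ.filter fun j => al l j ≠ al i j).card
      = ∑ j ∈ Finset.univ.filter fun j => al l j ≠ al i j, 1 := by
        rw [Finset.sum_const, smul_eq_mul, mul_one]
    _ ≤ ∑ j ∈ Finset.univ.filter fun j => al l j ≠ al i j, (al l j + al i j) := by
        refine Finset.sum_le_sum fun j hj => ?_
        have := (Finset.mem_filter.mp hj).2
        omega
    _ ≤ ∑ j, (al l j + al i j) := Finset.sum_le_sum_of_subset (Finset.filter_subset _ _)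
    _ ≤ n + n := by
        rw [Finset.sum_add_distrib]
        exact add_le_add (hal l) (hal i)

theorem th_mul_le' {n : ℕ} {x : ℝ} (hx : x ≤ n) : th n * x ≤ 1 / 2 :=
  (mul_le_mul_of_nonneg_left hx (th_pos n).le).trans (Pool.Agent.T9h20.TA.th_mul_le n)

/-- The bound of the piece (H') for the pair `(l, i)`. -/
noncomputable def bd (n : ℕ) (al : Fin k → Fin q → ℕ) (c a : Fin k ⊕ Fin q → Fin t → ℝ)
    (A B : ℝ≥0) (l i : Fin k) (y : ℝ) : ℝ≥0∞ :=
  A * kap (c (Sum.inl l)) (a (Sum.inl l)) y +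
    t * A * (ENNReal.ofReal (|lam al c a l i y| *
        Real.exp (-(th n * |Real.log (zz al c a l i y)|))) *
      ((1 + t * A) * (1 + 4 * B)) +
      2 * A * B * (∑ b ∈ SS al l i, kap (c b) (a b) y))

theorem fixed (hH : SFixP) {n : ℕ} {al : Fin k → Fin q → ℕ} (hal : ∀ i, ∑ j, al i j ≤ n)
    {c a : Fin k ⊕ Fin q → Fin t → ℝ} (hc : ∀ b s, c b s ≠ 0)
    (μ : Fin k ⊕ Fin q → Fin t → Measure ℝ)
    [∀ b s, IsProbabilityMeasure (μ b s)] (A B : ℝ≥0)
    (hB : ∀ b s, μ b s ≤ (B : ℝ≥0∞) • (volume : Measure ℝ))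
    (hA : ∀ b s, ∫⁻ x, ‖x‖ₑ ∂(μ b s) ≤ A) (y : ℝ) (l i : Fin k) :
    ∫⁻ v, {v | |ZZ al c a v l i y| ≤ 1}.indicator (fun v => ‖II al c a v l i y‖ₑ) v ∂(PP μ) ≤
      bd n al c a A B l i y := by
  have h := hH (Fin k ⊕ Fin q) t μ A B hB hA (fun b s => gg (c b) (a b) s y)
    (fun b s => hh (c b) (a b) s y) (fun b => sel (c b) (a b) y)
    (fun b => abs_gg_sel (hc b) y) (fun b => hh_sel (c b) (a b) y)
    (fun b s => abs_gg_le (hc b) s y) (Sum.inl l) (SS al l i) (pp al l i)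
    (by
      intro hm
      unfold SS at hm
      obtain ⟨j, -, hj⟩ := Finset.mem_map.mp hm
      exact inr_ne l j hj)
    (zz al c a l i y) (lam al c a l i y) (th n)
    (zz_pos al hc l i y) (th_pos n).le (th_le n)
    (th_mul_le' (pos_part_le hal l i)) (th_mul_le' (neg_part_le hal l i))
  exact h

/-- The expectation for fixed `y`, pivot `i`. -/
theorem fix1 (hH : SFixP) (hL : SLogD) (hM : SMom) {n : ℕ} {al : Fin k → Fin q → ℕ}
    (hal : ∀ i, ∑ j, al i j ≤ n)
    {c a : Fin k ⊕ Fin q → Fin t → ℝ} (hc : ∀ b s, c b s ≠ 0)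
    (μ : Fin k ⊕ Fin q → Fin t → Measure ℝ)
    [∀ b s, IsProbabilityMeasure (μ b s)] (A B : ℝ≥0)
    (hB : ∀ b s, μ b s ≤ (B : ℝ≥0∞) • (volume : Measure ℝ))
    (hA : ∀ b s, ∫⁻ x, ‖x‖ₑ ∂(μ b s) ≤ A) (y : ℝ) (i : Fin k) :
    ∑ s, ∫⁻ v, (KK al c a i s ∩ UU al c a i s).indicator
        (fun p => ‖D1 al c a i s p.1 p.2‖ₑ) (v, y) ∂(PP μ) ≤
      A * kap (c (Sum.inl i)) (a (Sum.inl i)) y +
        ∑ l ∈ Finset.univ.erase i, bd n al c a A B l i y := by
  classical
  set s0 := sel (c (Sum.inl i)) (a (Sum.inl i)) y with hs0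
  have h1 : ∑ s, ∫⁻ v, (KK al c a i s ∩ UU al c a i s).indicator
        (fun p => ‖D1 al c a i s p.1 p.2‖ₑ) (v, y) ∂(PP μ) =
        ∫⁻ v, (KK al c a i s0 ∩ UU al c a i s0).indicator
          (fun p => ‖D1 al c a i s0 p.1 p.2‖ₑ) (v, y) ∂(PP μ) := by
    refine Finset.sum_eq_single s0 (fun s _ hs => ?_) (fun h => absurd (Finset.mem_univ _) h)
    have : ∀ v : Fin k ⊕ Fin q → Fin t → ℝ, (KK al c a i s ∩ UU al c a i s).indicator
        (fun p => ‖D1 al c a i s p.1 p.2‖ₑ) (v, y) = 0 := by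
      intro v
      refine Set.indicator_of_notMem (fun hmem => hs ?_) _
      exact (sel_of_mem hmem.1 hmem.2).symm
    simp only [this, lintegral_zero]
  rw [h1]
  calc ∫⁻ v, (KK al c a i s0 ∩ UU al c a i s0).indicator
          (fun p => ‖D1 al c a i s0 p.1 p.2‖ₑ) (v, y) ∂(PP μ)
      ≤ ∫⁻ v, (‖eta c a v y (Sum.inl i)‖ₑ + ∑ l ∈ Finset.univ.erase i,
          {v | |ZZ al c a v l i y| ≤ 1}.indicator (fun v => ‖II al c a v l i y‖ₑ) v)
            ∂(PP μ) := by
        refine lintegral_mono_ae ?_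
        filter_upwards [ae_ne hM hc μ A B hB hA y (a := a)] with v hv
        by_cases hmem : (v, y) ∈ KK al c a i s0 ∩ UU al c a i s0
        · rw [Set.indicator_of_mem hmem]
          refine (D1_le hL hc hmem.1 hmem.2 hv).trans ?_
          refine add_le_add le_rfl (Finset.sum_le_sum fun l _ => ?_)
          rw [Set.indicator_of_mem]
          exact abs_ZZ_le al hc hmem.1 hv l
        · rw [Set.indicator_of_notMem hmem]
          exact zero_le
    _ = ∫⁻ v, ‖eta c a v y (Sum.inl i)‖ₑ ∂(PP μ) + ∑ l ∈ Finset.univ.erase i,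
          ∫⁻ v, {v | |ZZ al c a v l i y| ≤ 1}.indicator
            (fun v => ‖II al c a v l i y‖ₑ) v ∂(PP μ) := by
        rw [lintegral_add_left (measurable_eta c a y _).enorm, lintegral_finsetSum]
        intro l _
        refine Measurable.indicator (measurable_II al c a l i y).enorm ?_
        exact measurableSet_le (measurable_ZZ al c a l i y).norm measurable_const
    _ ≤ A * kap (c (Sum.inl i)) (a (Sum.inl i)) y +
          ∑ l ∈ Finset.univ.erase i, bd n al c a A B l i y := by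
        refine add_le_add (lintegral_eta μ A hA _ y) (Finset.sum_le_sum fun l _ => ?_)
        exact fixed hH hal hc μ A B hB hA y l i

/-- The expectation for fixed `y`, one factor. -/
theorem fix0 {c a : Fin k ⊕ Fin q → Fin t → ℝ} (hc : ∀ b s, c b s ≠ 0)
    (μ : Fin k ⊕ Fin q → Fin t → Measure ℝ)
    [∀ b s, IsProbabilityMeasure (μ b s)] (A : ℝ≥0)
    (hA : ∀ b s, ∫⁻ x, ‖x‖ₑ ∂(μ b s) ≤ A) (y : ℝ) (b : Fin k ⊕ Fin q) :
    ∑ s, ∫⁻ v, (K0 c a b s ∩ U0 c a b s).indicator (fun p => ‖D0 c a b s p.1 p.2‖ₑ)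
        (v, y) ∂(PP μ) ≤ A * kap (c b) (a b) y := by
  classical
  set s0 := sel (c b) (a b) y with hs0
  have h1 : ∑ s, ∫⁻ v, (K0 c a b s ∩ U0 c a b s).indicator (fun p => ‖D0 c a b s p.1 p.2‖ₑ)
        (v, y) ∂(PP μ) = ∫⁻ v, (K0 c a b s0 ∩ U0 c a b s0).indicator
          (fun p => ‖D0 c a b s0 p.1 p.2‖ₑ) (v, y) ∂(PP μ) := by
    refine Finset.sum_eq_single s0 (fun s _ hs => ?_) (fun h => absurd (Finset.mem_univ _) h)
    have : ∀ v : Fin k ⊕ Fin q → Fin t → ℝ, (K0 c a b s ∩ U0 c a b s).indicator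
        (fun p => ‖D0 c a b s p.1 p.2‖ₑ) (v, y) = 0 := by
      intro v
      refine Set.indicator_of_notMem (fun hmem => hs ?_) _
      exact (sel_unique ⟨hmem.1, hmem.2⟩).symm
    simp only [this, lintegral_zero]
  rw [h1]
  refine le_trans (lintegral_mono fun v => ?_) (lintegral_eta μ A hA b y)
  by_cases hmem : (v, y) ∈ K0 c a b s0 ∩ U0 c a b s0
  · rw [Set.indicator_of_mem hmem]
    exact (D0_eq hc hmem.1 hmem.2).le
  · rw [Set.indicator_of_notMem hmem]
    exact zero_le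

end asm3

end Pool.Agent.T9h20.TB
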