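import Pool.Agent.T9h20.TB.Asm3

/-!
# The smoothed real tau-conjecture with shared factors: integration over `y`, covering
-/

set_option autoImplicit false

open MeasureTheory Set
open scoped ENNReal NNReal

namespace Pool.Agent.T9h20.TB

open Pool.Agent.T9h20.TA (mon fn dfn IsSel sel mx gg ta hh kap upd PP mon_ne hasDerivAt_mon
  continuous_mon hasDerivAt_fn sel_unique mx_pos mon_le_mx abs_gg_le abs_gg_sel hh_sel fn_eq
  dfn_eq dfn_div continuous_mx SLogD deriv_own isSel_sel SMom SFixP SKap SDrift SMeas SRice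
  lintegral_lin th th_pos th_le measurable_kap measurable_ta isProb_PP bd2 sum_lintegral_le
  encard_iUnion_le')

section asm4

variable {k q t : ℕ} [NeZero t]

theorem measurable_lam (al : Fin k → Fin q → ℕ) (c a : Fin k ⊕ Fin q → Fin t → ℝ)
    (l i : Fin k) : Measurable (lam al c a l i) := by
  unfold lam
  exact ((measurable_ta _ _).sub (measurable_ta _ _)).add
    (Finset.measurable_fun_sum _ fun j _ => (measurable_ta _ _).const_mul _)

theorem measurable_zz (al : Fin k → Fin q → ℕ) (c a : Fin k ⊕ Fin q → Fin t → ℝ)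
    (l i : Fin k) : Measurable (zz al c a l i) := by
  unfold zz
  exact ((continuous_mx _ _).measurable.div (continuous_mx _ _).measurable).mul
    (Finset.measurable_fun_prod _ fun b _ =>
      (measurable_zpow _).comp (continuous_mx _ _).measurable)

/-- The drift integral of a set of blocks. -/
theorem drift_set (hG : SDrift) {β : Type} {c a : β → Fin t → ℝ} (hc : ∀ b s, c b s ≠ 0)
    (S : Finset β) (e : β → ℝ) (θ : ℝ) (hθ : 0 < θ) :
    ∫⁻ y, ENNReal.ofReal (|∑ b ∈ S, e b * ta (c b) (a b) y| *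
      Real.exp (-(θ * |∑ b ∈ S, e b * Real.log (mx (c b) (a b) y)|))) ≤
      ENNReal.ofReal ((S.card * (t : ℝ) ^ 2 + 1) * (2 / θ)) := by
  have h := hG S.card t (fun j => c (S.equivFin.symm j)) (fun j => a (S.equivFin.symm j))
    (fun j => e (S.equivFin.symm j)) θ (fun j s => hc _ s) hθ
  have e1 : ∀ F : β → ℝ, ∑ j : Fin S.card, F (S.equivFin.symm j) = ∑ b ∈ S, F b := by
    intro F
    rw [← Finset.sum_coe_sort S F]
    exact Equiv.sum_comp S.equivFin.symm fun b : S => F b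
  have e2 : ∀ y, ∑ j : Fin S.card, e (S.equivFin.symm j) *
      ta (c (S.equivFin.symm j)) (a (S.equivFin.symm j)) y =
      ∑ b ∈ S, e b * ta (c b) (a b) y := fun y => e1 fun b => e b * ta (c b) (a b) y
  have e3 : ∀ y, ∑ j : Fin S.card, e (S.equivFin.symm j) *
      Real.log (mx (c (S.equivFin.symm j)) (a (S.equivFin.symm j)) y) =
      ∑ b ∈ S, e b * Real.log (mx (c b) (a b) y) := fun y =>
    e1 fun b => e b * Real.log (mx (c b) (a b) y)
  simp only [e2, e3] at h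
  exact h

/-- The weights. -/
noncomputable def ww (al : Fin k → Fin q → ℕ) (l i : Fin k) : Fin k ⊕ Fin q → ℝ :=
  Sum.elim (fun r => (if r = l then 1 else 0) - (if r = i then 1 else 0))
    fun j => (al l j : ℝ) - al i j

omit [NeZero t] in
theorem sum_ww (al : Fin k → Fin q → ℕ) {l i : Fin k} (hli : l ≠ i)
    (F : Fin k ⊕ Fin q → ℝ) :
    ∑ b ∈ insert (Sum.inl l) (insert (Sum.inl i) (SS al l i)), ww al l i b * F b =
      F (Sum.inl l) - F (Sum.inl i) + ∑ b ∈ SS al l i, (pp al l i b : ℝ) * F b := by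
  have hS : ∀ r : Fin k, (Sum.inl r : Fin k ⊕ Fin q) ∉ SS al l i := by
    intro r hm
    unfold SS at hm
    obtain ⟨j, -, hj⟩ := Finset.mem_map.mp hm
    exact inr_ne r j hj
  have h1 : (Sum.inl l : Fin k ⊕ Fin q) ∉ insert (Sum.inl i) (SS al l i) := by
    intro hm
    rcases Finset.mem_insert.mp hm with h | h
    · exact hli (Sum.inl.inj h)
    · exact hS l h
  rw [Finset.sum_insert h1, Finset.sum_insert (hS i)]
  have h2 : ww al l i (Sum.inl l) = 1 := by
    simp [ww, hli]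
  have h3 : ww al l i (Sum.inl i) = -1 := by
    simp [ww, hli.symm]
  have h4 : ∀ b ∈ SS al l i, ww al l i b * F b = (pp al l i b : ℝ) * F b := by
    intro b hb
    unfold SS at hb
    obtain ⟨j, -, rfl⟩ := Finset.mem_map.mp hb
    congr 1
    simp [ww, pp]
  rw [h2, h3, Finset.sum_congr rfl h4]
  ring

theorem drift (hG : SDrift) {n : ℕ} {al : Fin k → Fin q → ℕ} (hal : ∀ i, ∑ j, al i j ≤ n)
    {c a : Fin k ⊕ Fin q → Fin t → ℝ} (hc : ∀ b s, c b s ≠ 0)
    (l i : Fin k) (hli : l ≠ i) :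
    ∫⁻ y, ENNReal.ofReal (|lam al c a l i y| *
      Real.exp (-(th n * |Real.log (zz al c a l i y)|))) ≤
      ENNReal.ofReal ((2 * ((n : ℝ) + 1) * (t : ℝ) ^ 2 + 1) * (4 * ((n : ℝ) + 1))) := by
  have h := drift_set hG hc (a := a)
    (insert (Sum.inl l) (insert (Sum.inl i) (SS al l i))) (ww al l i) (th n) (th_pos n)
  have e1 : ∀ y, ∑ b ∈ insert (Sum.inl l) (insert (Sum.inl i) (SS al l i)),
      ww al l i b * ta (c b) (a b) y = lam al c a l i y := fun y =>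
    sum_ww al hli fun b => ta (c b) (a b) y
  have e2 : ∀ y, ∑ b ∈ insert (Sum.inl l) (insert (Sum.inl i) (SS al l i)),
      ww al l i b * Real.log (mx (c b) (a b) y) = Real.log (zz al c a l i y) := by
    intro y
    rw [sum_ww al hli fun b => Real.log (mx (c b) (a b) y)]
    unfold zz
    have hp : ∀ b, mx (c b) (a b) y ≠ 0 := fun b => (mx_pos (hc b) y).ne'
    rw [Real.log_mul (div_ne_zero (hp _) (hp _))
      (Finset.prod_ne_zero_iff.mpr fun b _ => zpow_ne_zero _ (hp b)),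
      Real.log_div (hp _) (hp _), Real.log_prod (fun b _ => zpow_ne_zero _ (hp b))]
    simp only [Real.log_zpow]
  simp only [e1, e2] at h
  refine h.trans (ENNReal.ofReal_le_ofReal ?_)
  have h2 : (2 : ℝ) / th n = 4 * ((n : ℝ) + 1) := by
    unfold th
    field_simp
    ring
  rw [h2]
  have h3 : ((insert (Sum.inl l) (insert (Sum.inl i) (SS al l i)) :
      Finset (Fin k ⊕ Fin q)).card : ℝ) ≤ 2 * ((n : ℝ) + 1) := by
    have h4 : (insert (Sum.inl l) (insert (Sum.inl i) (SS al l i)) :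
      Finset (Fin k ⊕ Fin q)).card ≤ 2 * (n + 1) := by
      refine (Finset.card_insert_le _ _).trans ?_
      have h5 := Finset.card_insert_le (Sum.inl i) (SS al l i)
      have h6 := card_SS_le hal l i
      omega
    exact_mod_cast h4
  gcongr

theorem lintegral_sum_kap (hF : SKap) {n : ℕ} {al : Fin k → Fin q → ℕ}
    (hal : ∀ i, ∑ j, al i j ≤ n) {c a : Fin k ⊕ Fin q → Fin t → ℝ}
    (hc : ∀ b s, c b s ≠ 0) (l i : Fin k) :
    ∫⁻ y, ∑ b ∈ SS al l i, kap (c b) (a b) y ≤ n * (t : ℝ≥0∞) ^ 2 + n * (t : ℝ≥0∞) ^ 2 := by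
  rw [lintegral_finsetSum _ fun b _ => measurable_kap (c b) (a b)]
  refine (Finset.sum_le_sum fun b _ => hF t (c b) (a b) (hc b)).trans ?_
  rw [Finset.sum_const, nsmul_eq_mul, ← add_mul]
  gcongr
  exact_mod_cast card_SS_le hal l i

theorem split_lin (f1 f2 f3 : ℝ → ℝ≥0∞) (h1 : Measurable f1) (h2 : Measurable f2)
    (h3 : Measurable f3) (p q r s : ℝ≥0∞) :
    ∫⁻ y, (p * f1 y + q * (f2 y * r + s * f3 y)) =
      p * (∫⁻ y, f1 y) + q * ((∫⁻ y, f2 y) * r + s * ∫⁻ y, f3 y) := by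
  have e1 : Measurable fun y => f2 y * r + s * f3 y := by fun_prop
  rw [lintegral_add_left (h1.const_mul _), lintegral_const_mul _ h1, lintegral_const_mul _ e1,
    lintegral_add_left (h2.mul_const _), lintegral_mul_const _ h2, lintegral_const_mul _ h3]

theorem measurable_drift (n : ℕ) (al : Fin k → Fin q → ℕ) (c a : Fin k ⊕ Fin q → Fin t → ℝ)
    (l i : Fin k) : Measurable fun y => ENNReal.ofReal (|lam al c a l i y| *
      Real.exp (-(th n * |Real.log (zz al c a l i y)|))) := by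
  refine ENNReal.measurable_ofReal.comp ?_
  refine (measurable_lam al c a l i).norm.mul ?_
  exact Real.measurable_exp.comp
    (((Real.measurable_log.comp (measurable_zz al c a l i)).norm.const_mul _).neg)

theorem measurable_sum_kap (al : Fin k → Fin q → ℕ) (c a : Fin k ⊕ Fin q → Fin t → ℝ)
    (l i : Fin k) : Measurable fun y => ∑ b ∈ SS al l i, kap (c b) (a b) y :=
  Finset.measurable_fun_sum _ fun b _ => measurable_kap (c b) (a b)

theorem measurable_bd (n : ℕ) (al : Fin k → Fin q → ℕ) (c a : Fin k ⊕ Fin q → Fin t → ℝ)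
    (A B : ℝ≥0) (l i : Fin k) : Measurable (bd n al c a A B l i) := by
  unfold bd
  exact ((measurable_kap _ _).const_mul _).add ((((measurable_drift n al c a l i).mul_const
    _).add ((measurable_sum_kap al c a l i).const_mul _)).const_mul _)

theorem lintegral_bd (hF : SKap) (hG : SDrift) {n : ℕ} {al : Fin k → Fin q → ℕ}
    (hal : ∀ i, ∑ j, al i j ≤ n) {c a : Fin k ⊕ Fin q → Fin t → ℝ}
    (hc : ∀ b s, c b s ≠ 0) (A B : ℝ≥0) (l i : Fin k) (hli : l ≠ i) :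
    ∫⁻ y, bd n al c a A B l i y ≤ bd2 n t A B := by
  unfold bd bd2
  rw [split_lin _ _ _ (measurable_kap _ _) (measurable_drift n al c a l i)
    (measurable_sum_kap al c a l i)]
  gcongr
  · exact hF t _ _ (hc _)
  · exact drift hG hal hc l i hli
  · exact lintegral_sum_kap hF hal hc l i

theorem piv (hR : SRice) (hH : SFixP) (hL : SLogD) (hM : SMom) (hF : SKap) (hG : SDrift)
    {n : ℕ} {al : Fin k → Fin q → ℕ} (hal : ∀ i, ∑ j, al i j ≤ n)
    {c a : Fin k ⊕ Fin q → Fin t → ℝ} (hc : ∀ b s, c b s ≠ 0)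
    (μ : Fin k ⊕ Fin q → Fin t → Measure ℝ)
    [∀ b s, IsProbabilityMeasure (μ b s)] (A B : ℝ≥0)
    (hB : ∀ b s, μ b s ≤ (B : ℝ≥0∞) • (volume : Measure ℝ))
    (hA : ∀ b s, ∫⁻ x, ‖x‖ₑ ∂(μ b s) ≤ A) (i : Fin k) :
    ∑ s, ∫⁻ v, (({y : ℝ | (v, y) ∈ KK al c a i s ∧ (v, y) ∈ UU al c a i s ∧
        FF al c a v y = 0}.encard : ℕ∞) : ℝ≥0∞) ∂(PP μ) ≤
      B * (A * (t : ℝ≥0∞) ^ 2 + (k - 1 : ℕ) * bd2 n t A B) := by
  classical
  calc ∑ s, ∫⁻ v, (({y : ℝ | (v, y) ∈ KK al c a i s ∧ (v, y) ∈ UU al c a i s ∧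
        FF al c a v y = 0}.encard : ℕ∞) : ℝ≥0∞) ∂(PP μ)
      ≤ ∑ s, B * ∫⁻ y, ∫⁻ v, (KK al c a i s ∩ UU al c a i s).indicator
          (fun p => ‖D1 al c a i s p.1 p.2‖ₑ) (v, y) ∂(PP μ) :=
        Finset.sum_le_sum fun s _ => rice1 hR al c a hc μ B hB i s
    _ = B * ∑ s, ∫⁻ y, ∫⁻ v, (KK al c a i s ∩ UU al c a i s).indicator
          (fun p => ‖D1 al c a i s p.1 p.2‖ₑ) (v, y) ∂(PP μ) := by rw [Finset.mul_sum]
    _ ≤ B * ∫⁻ y, ∑ s, ∫⁻ v, (KK al c a i s ∩ UU al c a i s).indicator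
          (fun p => ‖D1 al c a i s p.1 p.2‖ₑ) (v, y) ∂(PP μ) := by
        gcongr
        exact sum_lintegral_le _ _
    _ ≤ B * ∫⁻ y, (A * kap (c (Sum.inl i)) (a (Sum.inl i)) y +
          ∑ l ∈ Finset.univ.erase i, bd n al c a A B l i y) := by
        gcongr with y
        exact fix1 hH hL hM hal hc μ A B hB hA y i
    _ ≤ B * (A * (t : ℝ≥0∞) ^ 2 + (k - 1 : ℕ) * bd2 n t A B) := by
        gcongr
        rw [lintegral_add_left ((measurable_kap _ _).const_mul _),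
          lintegral_const_mul _ (measurable_kap _ _),
          lintegral_finsetSum _ fun l _ => measurable_bd n al c a A B l i]
        gcongr
        · exact hF t _ _ (hc _)
        · refine (Finset.sum_le_sum fun l hl => lintegral_bd hF hG hal hc A B l i
            (Finset.ne_of_mem_erase hl)).trans ?_
          rw [Finset.sum_const, Finset.card_erase_of_mem (Finset.mem_univ i),
            Finset.card_univ, Fintype.card_fin, nsmul_eq_mul]

theorem piv0 (hR : SRice) (hF : SKap)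
    {c a : Fin k ⊕ Fin q → Fin t → ℝ} (hc : ∀ b s, c b s ≠ 0)
    (μ : Fin k ⊕ Fin q → Fin t → Measure ℝ)
    [∀ b s, IsProbabilityMeasure (μ b s)] (A B : ℝ≥0)
    (hB : ∀ b s, μ b s ≤ (B : ℝ≥0∞) • (volume : Measure ℝ))
    (hA : ∀ b s, ∫⁻ x, ‖x‖ₑ ∂(μ b s) ≤ A) (b : Fin k ⊕ Fin q) :
    ∑ s, ∫⁻ v, (({y : ℝ | (v, y) ∈ K0 c a b s ∧ (v, y) ∈ U0 c a b s ∧
        fn (c b) (a b) (v b) y = 0}.encard : ℕ∞) : ℝ≥0∞) ∂(PP μ) ≤
      B * (A * (t : ℝ≥0∞) ^ 2) := by
  calc ∑ s, ∫⁻ v, (({y : ℝ | (v, y) ∈ K0 c a b s ∧ (v, y) ∈ U0 c a b s ∧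
        fn (c b) (a b) (v b) y = 0}.encard : ℕ∞) : ℝ≥0∞) ∂(PP μ)
      ≤ ∑ s, B * ∫⁻ y, ∫⁻ v, (K0 c a b s ∩ U0 c a b s).indicator
          (fun p => ‖D0 c a b s p.1 p.2‖ₑ) (v, y) ∂(PP μ) :=
        Finset.sum_le_sum fun s _ => rice0 hR c a hc μ B hB b s
    _ = B * ∑ s, ∫⁻ y, ∫⁻ v, (K0 c a b s ∩ U0 c a b s).indicator
          (fun p => ‖D0 c a b s p.1 p.2‖ₑ) (v, y) ∂(PP μ) := by rw [Finset.mul_sum]
    _ ≤ B * ∫⁻ y, ∑ s, ∫⁻ v, (K0 c a b s ∩ U0 c a b s).indicator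
          (fun p => ‖D0 c a b s p.1 p.2‖ₑ) (v, y) ∂(PP μ) := by
        gcongr
        exact sum_lintegral_le _ _
    _ ≤ B * ∫⁻ y, A * kap (c b) (a b) y := by
        gcongr with y
        exact fix0 hc μ A hA y b
    _ ≤ B * (A * (t : ℝ≥0∞) ^ 2) := by
        gcongr
        rw [lintegral_const_mul _ (measurable_kap _ _)]
        gcongr
        exact hF t _ _ (hc _)

/-! ### Covering -/

/-- The shared factors which occur in the first product. -/
def J0 [NeZero k] (al : Fin k → Fin q → ℕ) : Finset (Fin q) :=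
  Finset.univ.filter fun j => al 0 j ≠ 0

omit [NeZero t] in
theorem card_J0_le [NeZero k] {n : ℕ} {al : Fin k → Fin q → ℕ} (hal : ∀ i, ∑ j, al i j ≤ n) :
    (J0 al).card ≤ n := by
  unfold J0
  calc (Finset.univ.filter fun j => al 0 j ≠ 0).card
      = ∑ j ∈ Finset.univ.filter fun j => al 0 j ≠ 0, 1 := by
        rw [Finset.sum_const, smul_eq_mul, mul_one]
    _ ≤ ∑ j ∈ Finset.univ.filter fun j => al 0 j ≠ 0, al 0 j := by
        refine Finset.sum_le_sum fun j hj => ?_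
        have := (Finset.mem_filter.mp hj).2
        omega
    _ ≤ ∑ j, al 0 j := Finset.sum_le_sum_of_subset (Finset.filter_subset _ _)
    _ ≤ n := hal 0

theorem cover [NeZero k] (al : Fin k → Fin q → ℕ) {c a : Fin k ⊕ Fin q → Fin t → ℝ}
    (hc : ∀ b s, c b s ≠ 0) (v : Fin k ⊕ Fin q → Fin t → ℝ) :
    {y : ℝ | FF al c a v y = 0} ⊆
      (⋃ i : Fin k, ⋃ s : Fin t, {y : ℝ | (v, y) ∈ KK al c a i s ∧ (v, y) ∈ UU al c a i s ∧
        FF al c a v y = 0}) ∪
      ⋃ j : J0 al, ⋃ s : Fin t, {y : ℝ | (v, y) ∈ K0 c a (Sum.inr j) s ∧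
        (v, y) ∈ U0 c a (Sum.inr j) s ∧
        fn (c (Sum.inr j)) (a (Sum.inr j)) (v (Sum.inr j)) y = 0} := by
  classical
  intro y hy
  obtain ⟨i, -, hi⟩ := Finset.exists_max_image (Finset.univ : Finset (Fin k))
    (fun l => |mx (c (Sum.inl l)) (a (Sum.inl l)) y * PR al c a v l y|)
    ⟨0, Finset.mem_univ 0⟩
  by_cases h0 : PR al c a v i y = 0
  · right
    have h1 : PR al c a v 0 y = 0 := by
      have h2 := hi 0 (Finset.mem_univ 0)
      simp only [h0, mul_zero, abs_zero] at h2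
      have h3 := abs_nonpos_iff.mp h2
      exact (mul_eq_zero.mp h3).resolve_left (mx_pos (hc _) y).ne'
    unfold PR at h1
    obtain ⟨j, -, hj⟩ := Finset.prod_eq_zero_iff.mp h1
    have hj0 : al 0 j ≠ 0 := by
      intro h4
      rw [h4, pow_zero] at hj
      exact one_ne_zero hj
    have hj1 := (pow_eq_zero_iff hj0).mp hj
    have hjm : j ∈ J0 al := Finset.mem_filter.mpr ⟨Finset.mem_univ j, hj0⟩
    refine Set.mem_iUnion.mpr ⟨⟨j, hjm⟩, Set.mem_iUnion.mpr
      ⟨sel (c (Sum.inr j)) (a (Sum.inr j)) y, ?_, ?_, hj1⟩⟩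
    · exact (isSel_sel (c (Sum.inr j)) (a (Sum.inr j)) y).1
    · exact (isSel_sel (c (Sum.inr j)) (a (Sum.inr j)) y).2
  · left
    refine Set.mem_iUnion.mpr ⟨i, Set.mem_iUnion.mpr
      ⟨sel (c (Sum.inl i)) (a (Sum.inl i)) y, ⟨fun l => hi l (Finset.mem_univ l), ?_⟩,
        ⟨h0, ?_⟩, hy⟩⟩
    · exact (isSel_sel (c (Sum.inl i)) (a (Sum.inl i)) y).1
    · exact (isSel_sel (c (Sum.inl i)) (a (Sum.inl i)) y).2

theorem count_le [NeZero k] (al : Fin k → Fin q → ℕ) {c a : Fin k ⊕ Fin q → Fin t → ℝ}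
    (hc : ∀ b s, c b s ≠ 0) (v : Fin k ⊕ Fin q → Fin t → ℝ) :
    (({y : ℝ | FF al c a v y = 0}.encard : ℕ∞) : ℝ≥0∞) ≤
      ∑ i, ∑ s, (({y : ℝ | (v, y) ∈ KK al c a i s ∧ (v, y) ∈ UU al c a i s ∧
        FF al c a v y = 0}.encard : ℕ∞) : ℝ≥0∞) +
      ∑ j : J0 al, ∑ s, (({y : ℝ | (v, y) ∈ K0 c a (Sum.inr j) s ∧
        (v, y) ∈ U0 c a (Sum.inr j) s ∧
        fn (c (Sum.inr j)) (a (Sum.inr j)) (v (Sum.inr j)) y = 0}.encard : ℕ∞) : ℝ≥0∞) := by
  refine (ENat.toENNReal_mono ((Set.encard_le_encard (cover al hc v)).trans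
    (Set.encard_union_le _ _))).trans ?_
  rw [ENat.toENNReal_add]
  refine add_le_add ?_ ?_
  · refine (encard_iUnion_le' _).trans (Finset.sum_le_sum fun i _ => ?_)
    exact encard_iUnion_le' _
  · refine (encard_iUnion_le' _).trans (Finset.sum_le_sum fun j _ => ?_)
    exact encard_iUnion_le' _

theorem measurable_count1 (hMe : SMeas) (al : Fin k → Fin q → ℕ)
    (c a : Fin k ⊕ Fin q → Fin t → ℝ) (i : Fin k)
    (s : Fin t) : Measurable fun v : Fin k ⊕ Fin q → Fin t → ℝ =>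
      (({y : ℝ | (v, y) ∈ KK al c a i s ∧ (v, y) ∈ UU al c a i s ∧
        FF al c a v y = 0}.encard : ℕ∞) : ℝ≥0∞) := by
  have h := hMe (Fin k ⊕ Fin q → Fin t → ℝ)
    (KK al c a i s ∩ {p | FF al c a p.1 p.2 = 0}) (UU al c a i s)
    ((isClosed_KK al c a i s).inter (isClosed_eq (continuous_FF₂ al c a) continuous_const))
    (isOpen_UU al c a i s)
  convert h using 5 with v
  ext y
  simp only [Set.mem_inter_iff, Set.mem_ofPred_eq]
  tauto

omit [NeZero t] in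
theorem measurable_count0 (hMe : SMeas) (c a : Fin k ⊕ Fin q → Fin t → ℝ)
    (b : Fin k ⊕ Fin q) (s : Fin t) :
    Measurable fun v : Fin k ⊕ Fin q → Fin t → ℝ =>
      (({y : ℝ | (v, y) ∈ K0 c a b s ∧ (v, y) ∈ U0 c a b s ∧
        fn (c b) (a b) (v b) y = 0}.encard : ℕ∞) : ℝ≥0∞) := by
  have h := hMe (Fin k ⊕ Fin q → Fin t → ℝ)
    (K0 c a b s ∩ {p | fn (c b) (a b) (p.1 b) p.2 = 0}) (U0 c a b s)
    ((isClosed_K0 c a b s).inter (isClosed_eq (continuous_fn₂ c a b) continuous_const))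
    (isOpen_U0 c a b s)
  convert h using 5 with v
  ext y
  simp only [Set.mem_inter_iff, Set.mem_ofPred_eq]
  tauto

/-- The bound for exponential sums, raw form. -/
theorem main_raw (hMe : SMeas) (hR : SRice) (hH : SFixP) (hL : SLogD) (hM : SMom) (hF : SKap)
    (hG : SDrift) [NeZero k] {n : ℕ} {al : Fin k → Fin q → ℕ} (hal : ∀ i, ∑ j, al i j ≤ n)
    {c a : Fin k ⊕ Fin q → Fin t → ℝ} (hc : ∀ b s, c b s ≠ 0)
    (μ : Fin k ⊕ Fin q → Fin t → Measure ℝ)
    [∀ b s, IsProbabilityMeasure (μ b s)] (A B : ℝ≥0)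
    (hB : ∀ b s, μ b s ≤ (B : ℝ≥0∞) • (volume : Measure ℝ))
    (hA : ∀ b s, ∫⁻ x, ‖x‖ₑ ∂(μ b s) ≤ A) :
    ∫⁻ v, (({y : ℝ | FF al c a v y = 0}.encard : ℕ∞) : ℝ≥0∞) ∂(PP μ) ≤
      k * (B * (A * (t : ℝ≥0∞) ^ 2 + (k - 1 : ℕ) * bd2 n t A B)) +
        n * (B * (A * (t : ℝ≥0∞) ^ 2)) := by
  refine (lintegral_mono fun v => count_le al hc v).trans ?_
  rw [lintegral_add_left, lintegral_finsetSum, lintegral_finsetSum]
  · refine add_le_add ?_ ?_
    · calc ∑ i, ∫⁻ v, ∑ s, (({y : ℝ | (v, y) ∈ KK al c a i s ∧ (v, y) ∈ UU al c a i s ∧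
            FF al c a v y = 0}.encard : ℕ∞) : ℝ≥0∞) ∂(PP μ)
          ≤ ∑ _i : Fin k, B * (A * (t : ℝ≥0∞) ^ 2 + (k - 1 : ℕ) * bd2 n t A B) := by
            refine Finset.sum_le_sum fun i _ => ?_
            rw [lintegral_finsetSum _ fun s _ => measurable_count1 hMe al c a i s]
            exact piv hR hH hL hM hF hG hal hc μ A B hB hA i
        _ = k * (B * (A * (t : ℝ≥0∞) ^ 2 + (k - 1 : ℕ) * bd2 n t A B)) := by
            rw [Finset.sum_const, Finset.card_univ, Fintype.card_fin, nsmul_eq_mul]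
    · calc ∑ j : J0 al, ∫⁻ v, ∑ s, (({y : ℝ | (v, y) ∈ K0 c a (Sum.inr j) s ∧
            (v, y) ∈ U0 c a (Sum.inr j) s ∧
            fn (c (Sum.inr j)) (a (Sum.inr j)) (v (Sum.inr j)) y = 0}.encard : ℕ∞) : ℝ≥0∞)
            ∂(PP μ)
          ≤ ∑ _j : J0 al, B * (A * (t : ℝ≥0∞) ^ 2) := by
            refine Finset.sum_le_sum fun j _ => ?_
            rw [lintegral_finsetSum _ fun s _ => measurable_count0 hMe c a (Sum.inr j) s]
            exact piv0 hR hF hc μ A B hB hA (Sum.inr j)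
        _ = ((J0 al).card : ℝ≥0∞) * (B * (A * (t : ℝ≥0∞) ^ 2)) := by
            rw [Finset.sum_const, Finset.card_univ, Fintype.card_coe, nsmul_eq_mul]
        _ ≤ n * (B * (A * (t : ℝ≥0∞) ^ 2)) := by
            gcongr
            exact card_J0_le hal
  · intro j _
    exact Finset.measurable_fun_sum _ fun s _ => measurable_count0 hMe c a (Sum.inr j) s
  · intro i _
    exact Finset.measurable_fun_sum _ fun s _ => measurable_count1 hMe al c a i s
  · exact Finset.measurable_fun_sum _ fun i _ => Finset.measurable_fun_sum _ fun s _ =>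
      measurable_count1 hMe al c a i s

end asm4

end Pool.Agent.T9h20.TB
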