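import Pool.Agent.T9h20.TA.Asm7

/-!
# The smoothed real tau-conjecture with shared factors: the sum and its derivative

`F = ∑ i, f_i * ∏ j, g_j ^ (al i j)`; the block of `f_i` is `Sum.inl i`, that of `g_j` is
`Sum.inr j`.
-/

set_option autoImplicit false

open MeasureTheory Set
open scoped ENNReal NNReal

namespace Pool.Agent.T9h20.TB

open Pool.Agent.T9h20.TA

section glob

variable {k q t : ℕ}

/-- The product of the shared factors. -/
noncomputable def PR (al : Fin k → Fin q → ℕ) (c a v : Fin k ⊕ Fin q → Fin t → ℝ) (i : Fin k)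
    (y : ℝ) : ℝ :=
  ∏ j : Fin q, fn (c (Sum.inr j)) (a (Sum.inr j)) (v (Sum.inr j)) y ^ al i j

/-- Its derivative. -/
noncomputable def dPR (al : Fin k → Fin q → ℕ) (c a v : Fin k ⊕ Fin q → Fin t → ℝ) (i : Fin k)
    (y : ℝ) : ℝ :=
  ∑ j : Fin q, (∏ r ∈ Finset.univ.erase j,
      fn (c (Sum.inr r)) (a (Sum.inr r)) (v (Sum.inr r)) y ^ al i r) *
    (al i j * fn (c (Sum.inr j)) (a (Sum.inr j)) (v (Sum.inr j)) y ^ (al i j - 1) *
      dfn (c (Sum.inr j)) (a (Sum.inr j)) (v (Sum.inr j)) y)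

/-- The sum of products. -/
noncomputable def FF (al : Fin k → Fin q → ℕ) (c a v : Fin k ⊕ Fin q → Fin t → ℝ) (y : ℝ) : ℝ :=
  ∑ i, fn (c (Sum.inl i)) (a (Sum.inl i)) (v (Sum.inl i)) y * PR al c a v i y

/-- The derivative of `FF`. -/
noncomputable def dFF (al : Fin k → Fin q → ℕ) (c a v : Fin k ⊕ Fin q → Fin t → ℝ) (y : ℝ) : ℝ :=
  ∑ i, (dfn (c (Sum.inl i)) (a (Sum.inl i)) (v (Sum.inl i)) y * PR al c a v i y +
    fn (c (Sum.inl i)) (a (Sum.inl i)) (v (Sum.inl i)) y * dPR al c a v i y)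

theorem hasDerivAt_PR (al : Fin k → Fin q → ℕ) (c a v : Fin k ⊕ Fin q → Fin t → ℝ) (i : Fin k)
    (y : ℝ) : HasDerivAt (PR al c a v i) (dPR al c a v i y) y := by
  have h := HasDerivAt.fun_finsetProd (u := (Finset.univ : Finset (Fin q)))
    (f := fun j : Fin q => fun y => fn (c (Sum.inr j)) (a (Sum.inr j)) (v (Sum.inr j)) y ^ al i j)
    (f' := fun j : Fin q => al i j * fn (c (Sum.inr j)) (a (Sum.inr j)) (v (Sum.inr j)) y ^
      (al i j - 1) * dfn (c (Sum.inr j)) (a (Sum.inr j)) (v (Sum.inr j)) y) (x := y)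
    fun j _ => (hasDerivAt_fn _ _ _ _).fun_pow _
  refine h.congr_deriv ?_
  unfold dPR
  simp only [smul_eq_mul]

theorem hasDerivAt_FF (al : Fin k → Fin q → ℕ) (c a v : Fin k ⊕ Fin q → Fin t → ℝ) (y : ℝ) :
    HasDerivAt (FF al c a v) (dFF al c a v y) y := by
  unfold FF dFF
  exact HasDerivAt.fun_sum fun i _ => (hasDerivAt_fn _ _ _ _).mul (hasDerivAt_PR al c a v i y)

theorem continuous_fn₂ (c a : Fin k ⊕ Fin q → Fin t → ℝ) (b : Fin k ⊕ Fin q) :
    Continuous fun p : (Fin k ⊕ Fin q → Fin t → ℝ) × ℝ =>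
      fn (c b) (a b) (p.1 b) p.2 := by
  unfold fn
  refine continuous_finsetSum _ fun s _ => ?_
  refine Continuous.mul ?_ ((continuous_mon _ _ s).comp continuous_snd)
  exact (continuous_apply s).comp ((continuous_apply b).comp continuous_fst)

theorem continuous_dfn₂ (c a : Fin k ⊕ Fin q → Fin t → ℝ) (b : Fin k ⊕ Fin q) :
    Continuous fun p : (Fin k ⊕ Fin q → Fin t → ℝ) × ℝ =>
      dfn (c b) (a b) (p.1 b) p.2 := by
  unfold dfn
  refine continuous_finsetSum _ fun s _ => ?_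
  refine Continuous.mul ?_ (((continuous_mon _ _ s).comp continuous_snd).const_mul _)
  exact (continuous_apply s).comp ((continuous_apply b).comp continuous_fst)

theorem continuous_PR₂ (al : Fin k → Fin q → ℕ) (c a : Fin k ⊕ Fin q → Fin t → ℝ) (i : Fin k) :
    Continuous fun p : (Fin k ⊕ Fin q → Fin t → ℝ) × ℝ => PR al c a p.1 i p.2 := by
  unfold PR
  exact continuous_finsetProd _ fun j _ => (continuous_fn₂ c a (Sum.inr j)).pow _

theorem continuous_dPR₂ (al : Fin k → Fin q → ℕ) (c a : Fin k ⊕ Fin q → Fin t → ℝ) (i : Fin k) :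
    Continuous fun p : (Fin k ⊕ Fin q → Fin t → ℝ) × ℝ => dPR al c a p.1 i p.2 := by
  unfold dPR
  refine continuous_finsetSum _ fun j _ => ?_
  exact (continuous_finsetProd _ fun r _ => (continuous_fn₂ c a (Sum.inr r)).pow _).mul
    ((((continuous_fn₂ c a (Sum.inr j)).pow _).const_mul _).mul
      (continuous_dfn₂ c a (Sum.inr j)))

theorem continuous_FF₂ (al : Fin k → Fin q → ℕ) (c a : Fin k ⊕ Fin q → Fin t → ℝ) :
    Continuous fun p : (Fin k ⊕ Fin q → Fin t → ℝ) × ℝ => FF al c a p.1 p.2 := by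
  unfold FF
  exact continuous_finsetSum _ fun i _ => (continuous_fn₂ c a (Sum.inl i)).mul
    (continuous_PR₂ al c a i)

theorem continuous_dFF₂ (al : Fin k → Fin q → ℕ) (c a : Fin k ⊕ Fin q → Fin t → ℝ) :
    Continuous fun p : (Fin k ⊕ Fin q → Fin t → ℝ) × ℝ => dFF al c a p.1 p.2 := by
  unfold dFF
  refine continuous_finsetSum _ fun i _ => ?_
  exact ((continuous_dfn₂ c a (Sum.inl i)).mul (continuous_PR₂ al c a i)).add
    ((continuous_fn₂ c a (Sum.inl i)).mul (continuous_dPR₂ al c a i))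

/-! ### Changing one coefficient -/

theorem upd_same (v : Fin k ⊕ Fin q → Fin t → ℝ) (b : Fin k ⊕ Fin q) (s : Fin t)
    (x : ℝ) : upd v b s x b = Function.update (v b) s x := by
  simp [upd]

theorem upd_ne {b b' : Fin k ⊕ Fin q} (h : b' ≠ b)
    (v : Fin k ⊕ Fin q → Fin t → ℝ) (s : Fin t) (x : ℝ) : upd v b s x b' = v b' := by
  simp [upd, h]

theorem upd_upd (v : Fin k ⊕ Fin q → Fin t → ℝ) (b : Fin k ⊕ Fin q) (s : Fin t)
    (x x' : ℝ) : upd (upd v b s x) b s x' = upd v b s x' := by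
  simp [upd]

theorem inr_ne (i : Fin k) (j : Fin q) : (Sum.inr j : Fin k ⊕ Fin q) ≠ Sum.inl i := by
  intro h
  cases h

theorem PR_upd (al : Fin k → Fin q → ℕ) (c a v : Fin k ⊕ Fin q → Fin t → ℝ) (i l : Fin k)
    (s : Fin t) (x : ℝ) :
    PR al c a (upd v (Sum.inl i) s x) l = PR al c a v l := by
  funext y
  unfold PR
  refine Finset.prod_congr rfl fun j _ => ?_
  rw [upd_ne (inr_ne i j)]

theorem dPR_upd (al : Fin k → Fin q → ℕ) (c a v : Fin k ⊕ Fin q → Fin t → ℝ) (i l : Fin k)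
    (s : Fin t) (x : ℝ) :
    dPR al c a (upd v (Sum.inl i) s x) l = dPR al c a v l := by
  funext y
  unfold dPR
  refine Finset.sum_congr rfl fun j _ => ?_
  have h : ∀ r : Fin q, upd v (Sum.inl i) s x (Sum.inr r) = v (Sum.inr r) := fun r =>
    upd_ne (inr_ne i r) v s x
  simp only [h]

theorem FF_upd (al : Fin k → Fin q → ℕ) (c a v : Fin k ⊕ Fin q → Fin t → ℝ) (i : Fin k)
    (s : Fin t) (x y : ℝ) :
    FF al c a (upd v (Sum.inl i) s x) y = FF al c a v y +
      (x - v (Sum.inl i) s) *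
        (mon (c (Sum.inl i)) (a (Sum.inl i)) s y * PR al c a v i y) := by
  unfold FF
  rw [← Finset.add_sum_erase _ _ (Finset.mem_univ i),
    ← Finset.add_sum_erase (Finset.univ) (fun l => fn (c (Sum.inl l)) (a (Sum.inl l))
      (v (Sum.inl l)) y * PR al c a v l y) (Finset.mem_univ i)]
  have h1 : ∑ l ∈ Finset.univ.erase i, fn (c (Sum.inl l)) (a (Sum.inl l))
      (upd v (Sum.inl i) s x (Sum.inl l)) y * PR al c a (upd v (Sum.inl i) s x) l y =
      ∑ l ∈ Finset.univ.erase i, fn (c (Sum.inl l)) (a (Sum.inl l)) (v (Sum.inl l)) y *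
        PR al c a v l y := by
    refine Finset.sum_congr rfl fun l hl => ?_
    have hne : (Sum.inl l : Fin k ⊕ Fin q) ≠ Sum.inl i := by
      intro h
      exact Finset.ne_of_mem_erase hl (Sum.inl.inj h)
    rw [upd_ne hne, PR_upd]
  rw [h1, PR_upd, upd_same, fn_update]
  ring

end glob

end Pool.Agent.T9h20.TB
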